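import Pool.Agent.Q46.Kim.Cover16

set_option autoImplicit false
set_option linter.unusedVariables false
set_option linter.unusedSimpArgs false

namespace Q46.Kim

/-- point mass -/
def dl (g : G) : G → ℤ := fun h => if h = g then 1 else 0

/-- the tripod conditions, numerically -/
def Num (m y0 ya yb yc x0 xa xb xc z0 za zb zc : ℤ) : Prop :=
  Tet m (ya + yc) (xa + xc) (za + zc) ∧ Tet m (yb + yc) (xb + xc) (zb + zc) ∧
    Tet m (ya + yb) (xa + xb) (za + zb)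

theorem avail_num (m y0 ya yb yc x0 xa xb xc z0 za zb zc : ℤ) (hm : 1 ≤ m)
    (hy : 0 ≤ y0 ∧ 0 ≤ yb ∧ 0 ≤ ya ∧ 0 ≤ yc ∧ y0 + yb + ya + yc = m)
    (hx : 0 ≤ x0 ∧ 0 ≤ xb ∧ 0 ≤ xa ∧ 0 ≤ xc ∧ x0 + xb + xa + xc = m)
    (hz : 0 ≤ z0 ∧ 0 ≤ zb ∧ 0 ≤ za ∧ 0 ≤ zc ∧ z0 + zb + za + zc = m)
    (ht : Num m y0 ya yb yc x0 xa xb xc z0 za zb zc)
    (p1 : (ya + yc + (xa + xc) + (za + zc)) % 2 = 0)
    (p2 : (yb + yc + (xb + xc) + (zb + zc)) % 2 = 0) :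
    (1 ≤ y0 ∧ 1 ≤ z0 ∧ 1 ≤ x0 ∧ Num (m - 1) (y0 - 1) ya yb yc (x0 - 1) xa xb xc (z0 - 1) za zb zc) ∨
    (1 ≤ yb ∧ 1 ≤ za ∧ 1 ≤ xc ∧ Num (m - 1) y0 ya (yb - 1) yc x0 xa xb (xc - 1) z0 (za - 1) zb zc) ∨
    (1 ≤ yc ∧ 1 ≤ zb ∧ 1 ≤ xa ∧ Num (m - 1) y0 ya yb (yc - 1) x0 (xa - 1) xb xc z0 za (zb - 1) zc) ∨
    (1 ≤ ya ∧ 1 ≤ zc ∧ 1 ≤ xb ∧ Num (m - 1) y0 (ya - 1) yb yc x0 xa (xb - 1) xc z0 za zb (zc - 1)) ∨
    (1 ≤ yc ∧ 1 ≤ za ∧ 1 ≤ xb ∧ Num (m - 1) y0 ya yb (yc - 1) x0 xa (xb - 1) xc z0 (za - 1) zb zc) ∨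
    (1 ≤ ya ∧ 1 ≤ z0 ∧ 1 ≤ xa ∧ Num (m - 1) y0 (ya - 1) yb yc x0 (xa - 1) xb xc (z0 - 1) za zb zc) ∨
    (1 ≤ y0 ∧ 1 ≤ zc ∧ 1 ≤ xc ∧ Num (m - 1) (y0 - 1) ya yb yc x0 xa xb (xc - 1) z0 za zb (zc - 1)) ∨
    (1 ≤ yb ∧ 1 ≤ zb ∧ 1 ≤ x0 ∧ Num (m - 1) y0 ya (yb - 1) yc (x0 - 1) xa xb xc z0 za (zb - 1) zc) ∨
    (1 ≤ ya ∧ 1 ≤ zb ∧ 1 ≤ xc ∧ Num (m - 1) y0 (ya - 1) yb yc x0 xa xb (xc - 1) z0 za (zb - 1) zc) ∨
    (1 ≤ yc ∧ 1 ≤ zc ∧ 1 ≤ x0 ∧ Num (m - 1) y0 ya yb (yc - 1) (x0 - 1) xa xb xc z0 za zb (zc - 1)) ∨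
    (1 ≤ yb ∧ 1 ≤ z0 ∧ 1 ≤ xb ∧ Num (m - 1) y0 ya (yb - 1) yc x0 xa (xb - 1) xc (z0 - 1) za zb zc) ∨
    (1 ≤ y0 ∧ 1 ≤ za ∧ 1 ≤ xa ∧ Num (m - 1) (y0 - 1) ya yb yc x0 (xa - 1) xb xc z0 (za - 1) zb zc) ∨
    (1 ≤ yb ∧ 1 ≤ zc ∧ 1 ≤ xa ∧ Num (m - 1) y0 ya (yb - 1) yc x0 (xa - 1) xb xc z0 za zb (zc - 1)) ∨
    (1 ≤ y0 ∧ 1 ≤ zb ∧ 1 ≤ xb ∧ Num (m - 1) (y0 - 1) ya yb yc x0 xa (xb - 1) xc z0 za (zb - 1) zc) ∨
    (1 ≤ ya ∧ 1 ≤ za ∧ 1 ≤ x0 ∧ Num (m - 1) y0 (ya - 1) yb yc (x0 - 1) xa xb xc z0 (za - 1) zb zc) ∨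
    (1 ≤ yc ∧ 1 ≤ z0 ∧ 1 ≤ xc ∧ Num (m - 1) y0 ya yb (yc - 1) x0 xa xb (xc - 1) (z0 - 1) za zb zc) := by
  unfold Num Tet at *
  obtain ⟨e, he⟩ : ∃ e, e = (ya + za + xa) % 2 := ⟨_, rfl⟩
  obtain ⟨pa, hpa⟩ : ∃ pa, 2 * pa = ya + za - xa - e := ⟨(ya + za - xa - e) / 2, by omega⟩
  obtain ⟨pb, hpb⟩ : ∃ pb, 2 * pb = yb + zb - xb - e := ⟨(yb + zb - xb - e) / 2, by omega⟩
  obtain ⟨pc, hpc⟩ : ∃ pc, 2 * pc = yc + zc - xc + e := ⟨(yc + zc - xc + e) / 2, by omega⟩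
  have key := cover16
    (y0 - (za - pa) - (zb - pb - e) - (zc - pc)) 0 0 0
    0 (ya - e - pa) (zc - pc) pb
    e pc (yb - pb) (za - pa)
    0 (zb - pb - e) pa (yc - pc)
    (by omega)
    (by omega)
    (by omega)
    (by omega)
    (by omega)
    (by omega)
    (by omega)
    (by omega)
    (by omega)
    (by omega)
    (by omega)
    (by omega)
    (by omega)
    (by omega)
    (by omega)
    (by omega)
    (by omega)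
    (by omega)
    (by omega)
    (by omega)
    (by omega)
    (by omega)
    (by omega)
    (by omega)
    (by omega)
  clear he
  rcases key with h | h | h | h | h | h | h | h | h | h | h | h | h | h | h | h
  · left
    refine ⟨?_, ?_, ?_, ?_, ?_, ?_⟩ <;> omega
  · right; left
    refine ⟨?_, ?_, ?_, ?_, ?_, ?_⟩ <;> omega
  · right; right; left
    refine ⟨?_, ?_, ?_, ?_, ?_, ?_⟩ <;> omega
  · right; right; right; left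
    refine ⟨?_, ?_, ?_, ?_, ?_, ?_⟩ <;> omega
  · right; right; right; right; left
    refine ⟨?_, ?_, ?_, ?_, ?_, ?_⟩ <;> omega
  · right; right; right; right; right; left
    refine ⟨?_, ?_, ?_, ?_, ?_, ?_⟩ <;> omega
  · right; right; right; right; right; right; left
    refine ⟨?_, ?_, ?_, ?_, ?_, ?_⟩ <;> omega
  · right; right; right; right; right; right; right; left
    refine ⟨?_, ?_, ?_, ?_, ?_, ?_⟩ <;> omega
  · right; right; right; right; right; right; right; right; left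
    refine ⟨?_, ?_, ?_, ?_, ?_, ?_⟩ <;> omega
  · right; right; right; right; right; right; right; right; right; left
    refine ⟨?_, ?_, ?_, ?_, ?_, ?_⟩ <;> omega
  · right; right; right; right; right; right; right; right; right; right; left
    refine ⟨?_, ?_, ?_, ?_, ?_, ?_⟩ <;> omega
  · right; right; right; right; right; right; right; right; right; right; right; left
    refine ⟨?_, ?_, ?_, ?_, ?_, ?_⟩ <;> omega
  · right; right; right; right; right; right; right; right; right; right; right; right; left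
    refine ⟨?_, ?_, ?_, ?_, ?_, ?_⟩ <;> omega
  · right; right; right; right; right; right; right; right; right; right; right; right; right; left
    refine ⟨?_, ?_, ?_, ?_, ?_, ?_⟩ <;> omega
  · right; right; right; right; right; right; right; right; right; right; right; right; right; right; left
    refine ⟨?_, ?_, ?_, ?_, ?_, ?_⟩ <;> omega
  · right; right; right; right; right; right; right; right; right; right; right; right; right; right; right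
    refine ⟨?_, ?_, ?_, ?_, ?_, ?_⟩ <;> omega

end Q46.Kim
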