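import Pool.Agent.Q46.Kim.Tripod

set_option autoImplicit false
set_option linter.unusedVariables false

namespace Q46.Kim

open Finset

theorem sumC {ι : Type*} (x : ι → G → ℤ) (L : List ι) :
    ((L.map fun i => cC (x i)).sum - (L.map fun i => cA (x i)).sum -
      (L.map fun i => cB (x i)).sum) % 2 = 0 := by
  induction L with
  | nil => simp
  | cons i L ih =>
    simp only [List.map_cons, List.sum_cons]
    have := cC_parity (x i)
    omega

theorem eq_zero_of {m : ℕ} (s : Fin m → G) (y : G → ℤ) (hs : ∀ h, cnt s h = y h)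
    (h1 : y (0, 1) = 0) (h2 : y (1, 0) = 0) (h3 : y (1, 1) = 0) (i : Fin m) : s i = 0 := by
  have hp : 1 ≤ cnt s (s i) := by
    unfold cnt
    have : (if s i = s i then (1 : ℤ) else 0) ≤ ∑ j, if s j = s i then (1 : ℤ) else 0 :=
      Finset.single_le_sum (f := fun j => if s j = s i then (1 : ℤ) else 0)
        (fun j _ => by split_ifs <;> norm_num) (Finset.mem_univ i)
    simpa using this
  rw [hs] at hp
  rcases cases4 (s i) with h | h | h | h <;> rw [h] at hp ⊢
  · rfl
  · omega
  · omega
  · omega

theorem chain {ι : Type*} [DecidableEq ι] (m : ℕ) (x : ι → G → ℤ) (L : List ι) : L.Nodup →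
    (∀ i ∈ L, IsDist m (x i)) → ∀ y : G → ℤ, IsDist m y →
    (lo m (L.map fun i => cA (x i)) ≤ cA y ∧ cA y ≤ hi m (L.map fun i => cA (x i))) →
    (lo m (L.map fun i => cB (x i)) ≤ cB y ∧ cB y ≤ hi m (L.map fun i => cB (x i))) →
    (lo m (L.map fun i => cC (x i)) ≤ cC y ∧ cC y ≤ hi m (L.map fun i => cC (x i))) →
    (cA y + (L.map fun i => cA (x i)).sum) % 2 = 0 →
    (cB y + (L.map fun i => cB (x i)).sum) % 2 = 0 →
    ∀ s : Fin m → G, (∀ h, cnt s h = y h) →
    ∃ g : Fin m → ι → G, (∀ i, (L.map (g i)).sum = s i) ∧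
      ∀ j ∈ L, ∀ h, cnt (fun i => g i j) h = x j h := by
  induction L with
  | nil =>
    intro _ _ y hy hA hB hC _ _ s hs
    refine ⟨fun _ _ => 0, fun i => ?_, by simp⟩
    simp only [List.map_nil, lo_nil, hi_nil] at hA hB hC
    unfold cA cB cC at *
    obtain ⟨a1, a2, a3, a4, a5⟩ := hy
    rw [eq_zero_of s y hs (by omega) (by omega) (by omega)]
    simp
  | cons j L ih =>
    intro hn hd y hy hA hB hC pA pB s hs
    have hdj := hd j (by simp)
    have hdL : ∀ i ∈ L, IsDist m (x i) := fun i hi => hd i (by simp [hi])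
    rw [List.nodup_cons] at hn
    have hm : (0 : ℤ) ≤ m := by positivity
    have hT : ∀ i ∈ L, Tet m (cA (x i)) (cB (x i)) (cC (x i)) := fun i hi =>
      tet_of_dist m _ (hdL i hi)
    have hR := rel m hm L (fun i => cA (x i)) (fun i => cB (x i)) (fun i => cC (x i)) hT
    have bA := bounds m hm L (fun i => cA (x i)) (fun i hi => by
      have := (hT i hi).bounds; omega)
    have bB := bounds m hm L (fun i => cB (x i)) (fun i hi => by
      have := (hT i hi).bounds; omega)
    have bC := bounds m hm L (fun i => cC (x i)) (fun i hi => by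
      have := (hT i hi).bounds; omega)
    have qA := parity (m : ℤ) L (fun i => cA (x i))
    have qB := parity (m : ℤ) L (fun i => cB (x i))
    have qC := parity (m : ℤ) L (fun i => cC (x i))
    have sC := sumC x L
    have y1 := cC_parity y
    have x1 := cC_parity (x j)
    simp only [List.map_cons, lo_cons, hi_cons, List.sum_cons] at hA hB hC pA pB
    obtain ⟨z, hz, ht, z1, z2, z3, z4, z5, z6⟩ := step m y (x j) hy hdj _ _ _ _ _ _ hR bA bB bC
      hA hB hC (by clear * - qA; omega) (by clear * - qB; omega) (by clear * - qC; omega)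
      (by clear * - qA pA; omega) (by clear * - qB pB; omega)
      (by clear * - qA qB qC sC y1 x1 pA pB; omega)
    obtain ⟨t, t1, t2⟩ := tripod' m y (x j) z hy hdj hz ht s hs
    obtain ⟨-, -, -, r1, r2⟩ := ht
    obtain ⟨g, g1, g2⟩ := ih hn.2 hdL z hz ⟨z1, z2⟩ ⟨z3, z4⟩ ⟨z5, z6⟩
      (by clear * - pA r1; omega) (by clear * - pB r2; omega) t t1
    refine ⟨fun i => Function.update (g i) j (s i + t i), fun i => ?_, fun j' hj' h => ?_⟩
    · simp only [List.map_cons, List.sum_cons, Function.update_self]
      have : L.map (Function.update (g i) j (s i + t i)) = L.map (g i) := by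
        refine List.map_congr_left fun a ha => ?_
        rw [Function.update_of_ne]
        rintro rfl
        exact hn.1 ha
      rw [this, g1, add_assoc]
      have : ∀ a : G, a + a = 0 := by decide
      rw [this, add_zero]
    · by_cases e : j' = j
      · subst e
        simp only [Function.update_self]
        exact t2 h
      · simp only [Function.update_of_ne e]
        refine g2 j' ?_ h
        simpa [e] using hj'

end Q46.Kim
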