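import Mathlib

set_option autoImplicit false

namespace Q46.Kim

open Finset

/-- If all permutation sums of a real matrix are nonnegative and every cell lies on a permutation
with sum zero, then the sum of all entries is not positive. -/
theorem cover_real (A : Fin 4 → Fin 4 → ℝ) (h : ∀ σ : Equiv.Perm (Fin 4), 0 ≤ ∑ i, A i (σ i))
    (π : Fin 4 → Fin 4 → Equiv.Perm (Fin 4)) (h1 : ∀ i j, π i j i = j)
    (h2 : ∀ i j, ∑ k, A k (π i j k) = 0) : ∑ i, ∑ j, A i j ≤ 0 := by
  -- the matrix `D`
  let D : Fin 4 → Fin 4 → ℝ := fun k l => ∑ i, ∑ j, if π i j k = l then 1 else 0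
  have hD1 : ∀ k l, 1 ≤ D k l := by
    intro k l
    have : (if π k l k = l then (1 : ℝ) else 0) ≤ D k l := by
      have e1 : (∑ j, if π k j k = l then (1 : ℝ) else 0) ≤ D k l :=
        Finset.single_le_sum (f := fun i => ∑ j, if π i j k = l then (1 : ℝ) else 0)
          (fun i _ => Finset.sum_nonneg fun j _ => by split_ifs <;> norm_num) (Finset.mem_univ k)
      have e2 : (if π k l k = l then (1 : ℝ) else 0) ≤ ∑ j, if π k j k = l then (1 : ℝ) else 0 :=
        Finset.single_le_sum (f := fun j => if π k j k = l then (1 : ℝ) else 0)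
          (fun j _ => by split_ifs <;> norm_num) (Finset.mem_univ l)
      exact e2.trans e1
    rw [h1, if_pos rfl] at this
    exact this
  have hDr : ∀ k, ∑ l, D k l = 16 := by
    intro k
    calc ∑ l, D k l = ∑ i : Fin 4, ∑ j : Fin 4, ∑ l, if π i j k = l then (1 : ℝ) else 0 := by
          simp only [D]
          rw [Finset.sum_comm]
          refine Finset.sum_congr rfl fun i _ => ?_
          rw [Finset.sum_comm]
      _ = 16 := by simp; norm_num
  have hDc : ∀ l, ∑ k, D k l = 16 := by
    intro l
    calc ∑ k, D k l = ∑ i : Fin 4, ∑ j : Fin 4, ∑ k, if π i j k = l then (1 : ℝ) else 0 := by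
          simp only [D]
          rw [Finset.sum_comm]
          refine Finset.sum_congr rfl fun i _ => ?_
          rw [Finset.sum_comm]
      _ = ∑ i : Fin 4, ∑ j : Fin 4, (1 : ℝ) := by
          refine Finset.sum_congr rfl fun i _ => Finset.sum_congr rfl fun j _ => ?_
          have : ∀ k, (π i j k = l) ↔ (k = (π i j).symm l) := fun k => by
            rw [Equiv.eq_symm_apply]
          simp [this]
      _ = 16 := by simp; norm_num
  have hM : (Matrix.of fun k l => (D k l - 1) / 12) ∈ doublyStochastic ℝ (Fin 4) := by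
    rw [mem_doublyStochastic_iff_sum]
    refine ⟨fun k l => ?_, fun k => ?_, fun l => ?_⟩
    · simp only [Matrix.of_apply]
      have := hD1 k l
      apply div_nonneg (by linarith) (by norm_num)
    · simp only [Matrix.of_apply]
      rw [← Finset.sum_div, Finset.sum_sub_distrib, hDr]
      simp; norm_num
    · simp only [Matrix.of_apply]
      rw [← Finset.sum_div, Finset.sum_sub_distrib, hDc]
      simp; norm_num
  obtain ⟨w, hw0, -, hw⟩ := exists_eq_sum_perm_of_mem_doublyStochastic hM
  have hin : ∀ k l, (D k l - 1) / 12 = ∑ σ : Equiv.Perm (Fin 4), w σ * if σ k = l then 1 else 0 := by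
    intro k l
    have := congrFun (congrFun hw k) l
    simp only [Matrix.of_apply] at this
    rw [← this, Matrix.sum_apply]
    refine Finset.sum_congr rfl fun σ _ => ?_
    simp [Matrix.smul_apply, Equiv.Perm.permMatrix, PEquiv.toMatrix_apply, Equiv.toPEquiv_apply,
      eq_comm]
  have hpos : 0 ≤ ∑ k, ∑ l, A k l * ((D k l - 1) / 12) := by
    have : ∑ k, ∑ l, A k l * ((D k l - 1) / 12) = ∑ σ : Equiv.Perm (Fin 4), w σ * ∑ k, A k (σ k) := by
      calc ∑ k, ∑ l, A k l * ((D k l - 1) / 12)
          = ∑ k, ∑ l, ∑ σ : Equiv.Perm (Fin 4), w σ * (A k l * if σ k = l then 1 else 0) := by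
            refine Finset.sum_congr rfl fun k _ => Finset.sum_congr rfl fun l _ => ?_
            rw [hin, Finset.mul_sum]
            refine Finset.sum_congr rfl fun σ _ => by ring
        _ = ∑ k, ∑ σ : Equiv.Perm (Fin 4), ∑ l, w σ * (A k l * if σ k = l then 1 else 0) :=
            Finset.sum_congr rfl fun k _ => Finset.sum_comm
        _ = ∑ k, ∑ σ : Equiv.Perm (Fin 4), w σ * A k (σ k) := by
            refine Finset.sum_congr rfl fun k _ => Finset.sum_congr rfl fun σ _ => ?_
            simp
        _ = ∑ σ : Equiv.Perm (Fin 4), ∑ k, w σ * A k (σ k) := Finset.sum_comm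
        _ = _ := Finset.sum_congr rfl fun σ _ => (Finset.mul_sum _ _ _).symm
    rw [this]
    exact Finset.sum_nonneg fun σ _ => mul_nonneg (hw0 σ) (h σ)
  have hzero : ∑ k, ∑ l, A k l * D k l = 0 := by
    calc ∑ k, ∑ l, A k l * D k l
        = ∑ k, ∑ l, ∑ i, ∑ j, A k l * (if π i j k = l then 1 else 0) := by
          refine Finset.sum_congr rfl fun k _ => Finset.sum_congr rfl fun l _ => ?_
          simp only [D, Finset.mul_sum]
      _ = ∑ k, ∑ i, ∑ l, ∑ j, A k l * (if π i j k = l then 1 else 0) :=
          Finset.sum_congr rfl fun k _ => Finset.sum_comm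
      _ = ∑ k, ∑ i, ∑ j, ∑ l, A k l * (if π i j k = l then 1 else 0) :=
          Finset.sum_congr rfl fun k _ => Finset.sum_congr rfl fun i _ => Finset.sum_comm
      _ = ∑ k, ∑ i, ∑ j, A k (π i j k) := by
          refine Finset.sum_congr rfl fun k _ => Finset.sum_congr rfl fun i _ =>
            Finset.sum_congr rfl fun j _ => ?_
          simp
      _ = ∑ i, ∑ k, ∑ j, A k (π i j k) := Finset.sum_comm
      _ = ∑ i, ∑ j, ∑ k, A k (π i j k) := Finset.sum_congr rfl fun i _ => Finset.sum_comm
      _ = 0 := by simp only [h2, Finset.sum_const_zero]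
  have e : ∑ k, ∑ l, A k l * ((D k l - 1) / 12) =
      (∑ k, ∑ l, A k l * D k l - ∑ k, ∑ l, A k l) / 12 := by
    rw [← Finset.sum_sub_distrib, Finset.sum_div]
    refine Finset.sum_congr rfl fun k _ => ?_
    rw [← Finset.sum_sub_distrib, Finset.sum_div]
    refine Finset.sum_congr rfl fun l _ => ?_
    ring
  rw [e, hzero] at hpos
  linarith

/-- Integer version, with functions. -/
theorem cover (A : Fin 4 → Fin 4 → ℤ)
    (h : ∀ f : Fin 4 → Fin 4, Function.Injective f → 0 ≤ ∑ i, A i (f i))
    (hpos : 1 ≤ ∑ i, ∑ j, A i j) :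
    ∃ i j, ∀ f : Fin 4 → Fin 4, Function.Injective f → f i = j → 1 ≤ ∑ k, A k (f k) := by
  by_contra hcon
  push Not at hcon
  choose f hf1 hf2 hf3 using hcon
  have h0 : ∀ i j, ∑ k, A k (f i j k) = 0 := fun i j => by
    have := h _ (hf1 i j)
    have := hf3 i j
    omega
  have hb : ∀ i j, Function.Bijective (f i j) := fun i j => Finite.injective_iff_bijective.1 (hf1 i j)
  have := cover_real (fun i j => (A i j : ℝ)) (fun σ => by
      have := h σ σ.injective
      exact_mod_cast this) (fun i j => Equiv.ofBijective _ (hb i j)) (fun i j => by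
      simp [hf2]) (fun i j => by
      have := h0 i j
      simp only [Equiv.ofBijective_apply]
      exact_mod_cast this)
  have h3 : ∑ i, ∑ j, A i j ≤ 0 := by exact_mod_cast this
  omega

end Q46.Kim
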