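import Pool.Agent.Q46.Kim.Interval

set_option autoImplicit false
set_option linter.unusedVariables false

namespace Q46.Kim

/-- A box with corners in a parity class meets the tetrahedron in a point of this class. -/
theorem box_tet (m la ha lb hb lc hc : ℤ) (h0a : 0 ≤ la) (h0b : 0 ≤ lb) (h0c : 0 ≤ lc)
    (hma : ha ≤ m) (hmb : hb ≤ m) (hmc : hc ≤ m) (hla : la ≤ ha) (hlb : lb ≤ hb) (hlc : lc ≤ hc)
    (pa : (ha - la) % 2 = 0) (pb : (hb - lb) % 2 = 0) (pc : (hc - lc) % 2 = 0)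
    (pp : (la + lb + lc) % 2 = 0)
    (h1 : la ≤ hb + hc) (h2 : lb ≤ ha + hc) (h3 : lc ≤ ha + hb) (h4 : la + lb + lc ≤ 2 * m) :
    ∃ A B C : ℤ, la ≤ A ∧ A ≤ ha ∧ lb ≤ B ∧ B ≤ hb ∧ lc ≤ C ∧ C ≤ hc ∧ (A - la) % 2 = 0 ∧
      (B - lb) % 2 = 0 ∧ (C - lc) % 2 = 0 ∧ Tet m A B C := by
  unfold Tet
  by_cases c1 : la + lb ≤ lc
  · by_cases c2 : ha ≤ lc - lb
    · exact ⟨ha, lc - ha, lc, by omega⟩
    · exact ⟨lc - lb, lb, lc, by omega⟩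
  · by_cases c2 : hc < la - lb
    · exact ⟨la, la - hc, hc, by omega⟩
    · by_cases c3 : hc < lb - la
      · exact ⟨lb - hc, lb, hc, by omega⟩
      · by_cases c4 : la - lb ≤ lc ∧ lb - la ≤ lc
        · exact ⟨la, lb, lc, by omega⟩
        · by_cases c5 : lb ≤ la
          · exact ⟨la, lb, la - lb, by omega⟩
          · exact ⟨la, lb, lb - la, by omega⟩

/-- The group. -/
abbrev G := ZMod 2 × ZMod 2

def cA (c : G → ℤ) : ℤ := c (1, 0) + c (1, 1)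
def cB (c : G → ℤ) : ℤ := c (0, 1) + c (1, 1)
def cC (c : G → ℤ) : ℤ := c (1, 0) + c (0, 1)

/-- distribution of total mass `m` -/
def IsDist (m : ℤ) (c : G → ℤ) : Prop :=
  0 ≤ c (0, 0) ∧ 0 ≤ c (0, 1) ∧ 0 ≤ c (1, 0) ∧ 0 ≤ c (1, 1) ∧
    c (0, 0) + c (0, 1) + c (1, 0) + c (1, 1) = m

/-- the distribution with given characters -/
def mk (m A B C : ℤ) : G → ℤ := fun h =>
  if h = (0, 0) then m - (A + B + C) / 2
  else if h = (0, 1) then (B + C - A) / 2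
  else if h = (1, 0) then (A + C - B) / 2
  else (A + B - C) / 2

theorem mk_spec (m A B C : ℤ) (h : Tet m A B C) (hp : (A + B + C) % 2 = 0) :
    IsDist m (mk m A B C) ∧ cA (mk m A B C) = A ∧ cB (mk m A B C) = B ∧ cC (mk m A B C) = C := by
  have e0 : mk m A B C (0, 0) = m - (A + B + C) / 2 := by simp [mk]
  have e1 : mk m A B C (0, 1) = (B + C - A) / 2 := by simp [mk]
  have e2 : mk m A B C (1, 0) = (A + C - B) / 2 := by simp [mk]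
  have e3 : mk m A B C (1, 1) = (A + B - C) / 2 := by simp [mk]
  unfold Tet at h
  unfold IsDist cA cB cC
  rw [e0, e1, e2, e3]
  omega

/-- Validity of a tripod. -/
def Tri (m : ℤ) (y x z : G → ℤ) : Prop :=
  Tet m (cA y) (cA x) (cA z) ∧ Tet m (cB y) (cB x) (cB z) ∧ Tet m (cC y) (cC x) (cC z) ∧
  (cA y + cA x + cA z) % 2 = 0 ∧ (cB y + cB x + cB z) % 2 = 0


theorem cond1 (m Ya Yb Yc Xa Xb Xc la ha lb hb lc hc : ℤ) (hY : Tet m Ya Yb Yc)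
    (hX : Tet m Xa Xb Xc) (hr : Rel m la ha lb hb lc hc)
    (ba : la ≤ ha ∧ la ≤ m ∧ 0 ≤ ha) (bb : lb ≤ hb ∧ lb ≤ m ∧ 0 ≤ hb)
    (bc : lc ≤ hc ∧ lc ≤ m ∧ 0 ≤ hc)
    (oa : la - Xa ≤ Ya ∧ Xa - ha ≤ Ya ∧ Ya ≤ ha + Xa ∧ Ya ≤ 2 * m - Xa - la)
    (ob : lb - Xb ≤ Yb ∧ Xb - hb ≤ Yb ∧ Yb ≤ hb + Xb ∧ Yb ≤ 2 * m - Xb - lb)
    (oc : lc - Xc ≤ Yc ∧ Xc - hc ≤ Yc ∧ Yc ≤ hc + Xc ∧ Yc ≤ 2 * m - Xc - lc) :
    max la (max (Ya - Xa) (Xa - Ya)) ≤ min hb (min (Yb + Xb) (2 * m - Yb - Xb)) +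
      min hc (min (Yc + Xc) (2 * m - Yc - Xc)) := by
  unfold Tet at hY hX
  obtain ⟨a1, a2, a3, a4, a5, a6, a7, a8, a9, a10, a11, a12⟩ := hr
  rcases min_choice hb (min (Yb + Xb) (2 * m - Yb - Xb)) with e | e <;> rw [e] <;> clear e <;>
  rcases min_choice hc (min (Yc + Xc) (2 * m - Yc - Xc)) with e | e <;> rw [e] <;> clear e <;>
  (try (rcases min_choice (Yb + Xb) (2 * m - Yb - Xb) with e | e <;> rw [e] <;> clear e)) <;>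
  (try (rcases min_choice (Yc + Xc) (2 * m - Yc - Xc) with e | e <;> rw [e] <;> clear e)) <;>
  (refine max_le ?_ (max_le ?_ ?_) <;> omega)

theorem cond2 (m Ya Yb Yc Xa Xb Xc la ha lb hb lc hc : ℤ) (hY : Tet m Ya Yb Yc)
    (hX : Tet m Xa Xb Xc) (hr : Rel m la ha lb hb lc hc)
    (ba : la ≤ ha ∧ la ≤ m ∧ 0 ≤ ha) (bb : lb ≤ hb ∧ lb ≤ m ∧ 0 ≤ hb)
    (bc : lc ≤ hc ∧ lc ≤ m ∧ 0 ≤ hc)
    (oa : la - Xa ≤ Ya ∧ Xa - ha ≤ Ya ∧ Ya ≤ ha + Xa ∧ Ya ≤ 2 * m - Xa - la)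
    (ob : lb - Xb ≤ Yb ∧ Xb - hb ≤ Yb ∧ Yb ≤ hb + Xb ∧ Yb ≤ 2 * m - Xb - lb)
    (oc : lc - Xc ≤ Yc ∧ Xc - hc ≤ Yc ∧ Yc ≤ hc + Xc ∧ Yc ≤ 2 * m - Xc - lc) :
    max la (max (Ya - Xa) (Xa - Ya)) + max lb (max (Yb - Xb) (Xb - Yb)) +
      max lc (max (Yc - Xc) (Xc - Yc)) ≤ 2 * m := by
  unfold Tet at hY hX
  obtain ⟨a1, a2, a3, a4, a5, a6, a7, a8, a9, a10, a11, a12⟩ := hr
  rcases max_choice la (max (Ya - Xa) (Xa - Ya)) with e | e <;> rw [e] <;> clear e <;>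
  rcases max_choice lb (max (Yb - Xb) (Xb - Yb)) with e | e <;> rw [e] <;> clear e <;>
  rcases max_choice lc (max (Yc - Xc) (Xc - Yc)) with e | e <;> rw [e] <;> clear e <;>
  (try (rcases max_choice (Ya - Xa) (Xa - Ya) with e | e <;> rw [e] <;> clear e)) <;>
  (try (rcases max_choice (Yb - Xb) (Xb - Yb) with e | e <;> rw [e] <;> clear e)) <;>
  (try (rcases max_choice (Yc - Xc) (Xc - Yc) with e | e <;> rw [e] <;> clear e)) <;>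
  omega


theorem tet_of_dist (m : ℤ) (y : G → ℤ) (hy : IsDist m y) : Tet m (cA y) (cB y) (cC y) := by
  obtain ⟨y1, y2, y3, y4, y5⟩ := hy
  unfold Tet cA cB cC
  omega

theorem cC_parity (y : G → ℤ) : (cC y - cA y - cB y) % 2 = 0 := by
  unfold cA cB cC
  omega

theorem Rel.perm1 {m la ha lb hb lc hc : ℤ} (h : Rel m la ha lb hb lc hc) :
    Rel m lb hb la ha lc hc := by
  unfold Rel at *; omega

theorem Rel.perm2 {m la ha lb hb lc hc : ℤ} (h : Rel m la ha lb hb lc hc) :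
    Rel m lc hc la ha lb hb := by
  unfold Rel at *; omega

theorem Tet.perm1 {m A B C : ℤ} (h : Tet m A B C) : Tet m B A C := by unfold Tet at *; omega
theorem Tet.perm2 {m A B C : ℤ} (h : Tet m A B C) : Tet m C A B := by unfold Tet at *; omega

theorem Tet.bounds {m A B C : ℤ} (h : Tet m A B C) :
    0 ≤ A ∧ A ≤ m ∧ 0 ≤ B ∧ B ≤ m ∧ 0 ≤ C ∧ C ≤ m := by
  unfold Tet at h; omega

theorem step_key (m l h Y X : ℤ) (h1 : l ≤ h) (h2 : l ≤ m) (h3 : 0 ≤ h) (h4 : (h - l) % 2 = 0)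
    (h5 : (Y + X - l) % 2 = 0) (h6 : 0 ≤ Y) (h7 : Y ≤ m) (h8 : 0 ≤ X) (h9 : X ≤ m)
    (h10 : l - X ≤ Y ∧ X - h ≤ Y ∧ Y ≤ h + X ∧ Y ≤ 2 * m - X - l) :
      0 ≤ max l (max (Y - X) (X - Y)) ∧ min h (min (Y + X) (2 * m - Y - X)) ≤ m ∧
      max l (max (Y - X) (X - Y)) ≤ min h (min (Y + X) (2 * m - Y - X)) ∧
      (max l (max (Y - X) (X - Y)) - l) % 2 = 0 ∧
      (min h (min (Y + X) (2 * m - Y - X)) - l) % 2 = 0 ∧
      l ≤ max l (max (Y - X) (X - Y)) ∧ Y - X ≤ max l (max (Y - X) (X - Y)) ∧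
      X - Y ≤ max l (max (Y - X) (X - Y)) ∧ min h (min (Y + X) (2 * m - Y - X)) ≤ h ∧
      min h (min (Y + X) (2 * m - Y - X)) ≤ Y + X ∧
      min h (min (Y + X) (2 * m - Y - X)) ≤ 2 * m - Y - X := by
  omega

theorem step (m : ℤ) (y x : G → ℤ) (hy : IsDist m y) (hx : IsDist m x)
    (la ha lb hb lc hc : ℤ) (hr : Rel m la ha lb hb lc hc)
    (ba : la ≤ ha ∧ la ≤ m ∧ 0 ≤ ha) (bb : lb ≤ hb ∧ lb ≤ m ∧ 0 ≤ hb)
    (bc : lc ≤ hc ∧ lc ≤ m ∧ 0 ≤ hc)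
    (oa : max (la - cA x) (cA x - ha) ≤ cA y ∧ cA y ≤ min (ha + cA x) (2 * m - cA x - la))
    (ob : max (lb - cB x) (cB x - hb) ≤ cB y ∧ cB y ≤ min (hb + cB x) (2 * m - cB x - lb))
    (oc : max (lc - cC x) (cC x - hc) ≤ cC y ∧ cC y ≤ min (hc + cC x) (2 * m - cC x - lc))
    (pa : (ha - la) % 2 = 0) (pb : (hb - lb) % 2 = 0) (pc : (hc - lc) % 2 = 0)
    (qa : (cA y + cA x - la) % 2 = 0) (qb : (cB y + cB x - lb) % 2 = 0)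
    (qc : (cC y + cC x - lc) % 2 = 0) :
    ∃ z : G → ℤ, IsDist m z ∧ Tri m y x z ∧ la ≤ cA z ∧ cA z ≤ ha ∧ lb ≤ cB z ∧ cB z ≤ hb ∧
      lc ≤ cC z ∧ cC z ≤ hc := by
  have hY := tet_of_dist m y hy
  have hX := tet_of_dist m x hx
  have pY := cC_parity y
  have pX := cC_parity x
  unfold Tri
  generalize cA y = Ya at *
  generalize cB y = Yb at *
  generalize cC y = Yc at *
  generalize cA x = Xa at *
  generalize cB x = Xb at *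
  generalize cC x = Xc at *
  clear hy hx
  have oo : ∀ Y X l h : ℤ, (max (l - X) (X - h) ≤ Y ∧ Y ≤ min (h + X) (2 * m - X - l)) →
      l - X ≤ Y ∧ X - h ≤ Y ∧ Y ≤ h + X ∧ Y ≤ 2 * m - X - l := by
    intro Y X l h hh
    clear * - hh
    omega
  have oa' := oo _ _ _ _ oa
  have ob' := oo _ _ _ _ ob
  have oc' := oo _ _ _ _ oc
  have c1 := cond1 m Ya Yb Yc Xa Xb Xc la ha lb hb lc hc hY hX hr ba bb bc oa' ob' oc'
  have c2 := cond1 m Yb Ya Yc Xb Xa Xc lb hb la ha lc hc hY.perm1 hX.perm1 hr.perm1 bb ba bc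
    ob' oa' oc'
  have c3 := cond1 m Yc Ya Yb Xc Xa Xb lc hc la ha lb hb hY.perm2 hX.perm2 hr.perm2 bc ba bb
    oc' oa' ob'
  have c4 := cond2 m Ya Yb Yc Xa Xb Xc la ha lb hb lc hc hY hX hr ba bb bc oa' ob' oc'
  have hY0 := hY.bounds
  have hX0 := hX.bounds
  clear hY hX hr
  obtain ⟨ka1, ka2, ka3, ka4, ka5, ka6⟩ := step_key m la ha Ya Xa ba.1 ba.2.1 ba.2.2 pa qa hY0.1 hY0.2.1
    hX0.1 hX0.2.1 oa'
  obtain ⟨kb1, kb2, kb3, kb4, kb5, kb6⟩ := step_key m lb hb Yb Xb bb.1 bb.2.1 bb.2.2 pb qb hY0.2.2.1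
    hY0.2.2.2.1 hX0.2.2.1 hX0.2.2.2.1 ob'
  obtain ⟨kc1, kc2, kc3, kc4, kc5, kc6⟩ := step_key m lc hc Yc Xc bc.1 bc.2.1 bc.2.2 pc qc hY0.2.2.2.2.1
    hY0.2.2.2.2.2 hX0.2.2.2.2.1 hX0.2.2.2.2.2 oc'
  clear oo oa ob oc oa' ob' oc' ba bb bc
  generalize max la (max (Ya - Xa) (Xa - Ya)) = la' at *
  generalize max lb (max (Yb - Xb) (Xb - Yb)) = lb' at *
  generalize max lc (max (Yc - Xc) (Xc - Yc)) = lc' at *
  generalize min ha (min (Ya + Xa) (2 * m - Ya - Xa)) = ha' at *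
  generalize min hb (min (Yb + Xb) (2 * m - Yb - Xb)) = hb' at *
  generalize min hc (min (Yc + Xc) (2 * m - Yc - Xc)) = hc' at *
  have t1 : (ha' - la') % 2 = 0 := by clear c1 c2 c3 c4; omega
  have t2 : (hb' - lb') % 2 = 0 := by clear c1 c2 c3 c4; omega
  have t3 : (hc' - lc') % 2 = 0 := by clear c1 c2 c3 c4; omega
  have t4 : (la' + lb' + lc') % 2 = 0 := by
    clear c1 c2 c3 c4 ka1 ka2 ka3 ka5 ka6 kb1 kb2 kb3 kb5 kb6 kc1 kc2 kc3 kc5 kc6 t1 t2 t3 hY0 hX0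
    omega
  obtain ⟨A, B, C, r1, r2, r3, r4, r5, r6, r7, r8, r9, r10⟩ := box_tet m _ _ _ _ _ _ ka1 kb1 kc1
    ka2 kb2 kc2 ka3 kb3 kc3 t1 t2 t3 t4 c1 c2 c3 c4
  clear c1 c2 c3 c4 ka1 ka2 ka3 ka5 kb1 kb2 kb3 kb5 kc1 kc2 kc3 kc5 t1 t2 t3
  have t5 : (A + B + C) % 2 = 0 := by
    clear ka6 kb6 kc6
    omega
  obtain ⟨s1, s2, s3, s4⟩ := mk_spec m A B C r10 t5
  refine ⟨mk m A B C, s1, ?_, ?_⟩
  · rw [s2, s3, s4]
    unfold Tet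
    refine ⟨?_, ?_, ?_, ?_, ?_⟩
    · clear kb6 kc6
      omega
    · clear ka6 kc6
      omega
    · clear ka6 kb6
      omega
    · clear kb6 kc6
      omega
    · clear ka6 kc6
      omega
  · rw [s2, s3, s4]
    omega

end Q46.Kim
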