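import Pool.Agent.Q46.Kim.Cover
import Pool.Agent.Q46.Kim.Step

set_option autoImplicit false
set_option linter.unusedVariables false
set_option linter.unusedSimpArgs false

namespace Q46.Kim

theorem cover16 (a00 a01 a02 a03 a10 a11 a12 a13 a20 a21 a22 a23 a30 a31 a32 a33 : ℤ)
    (h0 : 0 ≤ a00 + a11 + a22 + a33)
    (h1 : 0 ≤ a00 + a11 + a23 + a32)
    (h2 : 0 ≤ a00 + a12 + a21 + a33)
    (h3 : 0 ≤ a00 + a12 + a23 + a31)
    (h4 : 0 ≤ a00 + a13 + a21 + a32)
    (h5 : 0 ≤ a00 + a13 + a22 + a31)
    (h6 : 0 ≤ a01 + a10 + a22 + a33)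
    (h7 : 0 ≤ a01 + a10 + a23 + a32)
    (h8 : 0 ≤ a01 + a12 + a20 + a33)
    (h9 : 0 ≤ a01 + a12 + a23 + a30)
    (h10 : 0 ≤ a01 + a13 + a20 + a32)
    (h11 : 0 ≤ a01 + a13 + a22 + a30)
    (h12 : 0 ≤ a02 + a10 + a21 + a33)
    (h13 : 0 ≤ a02 + a10 + a23 + a31)
    (h14 : 0 ≤ a02 + a11 + a20 + a33)
    (h15 : 0 ≤ a02 + a11 + a23 + a30)
    (h16 : 0 ≤ a02 + a13 + a20 + a31)
    (h17 : 0 ≤ a02 + a13 + a21 + a30)
    (h18 : 0 ≤ a03 + a10 + a21 + a32)
    (h19 : 0 ≤ a03 + a10 + a22 + a31)
    (h20 : 0 ≤ a03 + a11 + a20 + a32)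
    (h21 : 0 ≤ a03 + a11 + a22 + a30)
    (h22 : 0 ≤ a03 + a12 + a20 + a31)
    (h23 : 0 ≤ a03 + a12 + a21 + a30)
    (ht : 1 ≤ a00 + a01 + a02 + a03 + a10 + a11 + a12 + a13 + a20 + a21 + a22 + a23 + a30 + a31 + a32 + a33) :
    (1 ≤ a00 + a11 + a22 + a33 ∧ 1 ≤ a00 + a11 + a23 + a32 ∧ 1 ≤ a00 + a12 + a21 + a33 ∧ 1 ≤ a00 + a12 + a23 + a31 ∧ 1 ≤ a00 + a13 + a21 + a32 ∧ 1 ≤ a00 + a13 + a22 + a31) ∨
    (1 ≤ a01 + a10 + a22 + a33 ∧ 1 ≤ a01 + a10 + a23 + a32 ∧ 1 ≤ a01 + a12 + a20 + a33 ∧ 1 ≤ a01 + a12 + a23 + a30 ∧ 1 ≤ a01 + a13 + a20 + a32 ∧ 1 ≤ a01 + a13 + a22 + a30) ∨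
    (1 ≤ a02 + a10 + a21 + a33 ∧ 1 ≤ a02 + a10 + a23 + a31 ∧ 1 ≤ a02 + a11 + a20 + a33 ∧ 1 ≤ a02 + a11 + a23 + a30 ∧ 1 ≤ a02 + a13 + a20 + a31 ∧ 1 ≤ a02 + a13 + a21 + a30) ∨
    (1 ≤ a03 + a10 + a21 + a32 ∧ 1 ≤ a03 + a10 + a22 + a31 ∧ 1 ≤ a03 + a11 + a20 + a32 ∧ 1 ≤ a03 + a11 + a22 + a30 ∧ 1 ≤ a03 + a12 + a20 + a31 ∧ 1 ≤ a03 + a12 + a21 + a30) ∨
    (1 ≤ a01 + a10 + a22 + a33 ∧ 1 ≤ a01 + a10 + a23 + a32 ∧ 1 ≤ a02 + a10 + a21 + a33 ∧ 1 ≤ a02 + a10 + a23 + a31 ∧ 1 ≤ a03 + a10 + a21 + a32 ∧ 1 ≤ a03 + a10 + a22 + a31) ∨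
    (1 ≤ a00 + a11 + a22 + a33 ∧ 1 ≤ a00 + a11 + a23 + a32 ∧ 1 ≤ a02 + a11 + a20 + a33 ∧ 1 ≤ a02 + a11 + a23 + a30 ∧ 1 ≤ a03 + a11 + a20 + a32 ∧ 1 ≤ a03 + a11 + a22 + a30) ∨
    (1 ≤ a00 + a12 + a21 + a33 ∧ 1 ≤ a00 + a12 + a23 + a31 ∧ 1 ≤ a01 + a12 + a20 + a33 ∧ 1 ≤ a01 + a12 + a23 + a30 ∧ 1 ≤ a03 + a12 + a20 + a31 ∧ 1 ≤ a03 + a12 + a21 + a30) ∨
    (1 ≤ a00 + a13 + a21 + a32 ∧ 1 ≤ a00 + a13 + a22 + a31 ∧ 1 ≤ a01 + a13 + a20 + a32 ∧ 1 ≤ a01 + a13 + a22 + a30 ∧ 1 ≤ a02 + a13 + a20 + a31 ∧ 1 ≤ a02 + a13 + a21 + a30) ∨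
    (1 ≤ a01 + a12 + a20 + a33 ∧ 1 ≤ a01 + a13 + a20 + a32 ∧ 1 ≤ a02 + a11 + a20 + a33 ∧ 1 ≤ a02 + a13 + a20 + a31 ∧ 1 ≤ a03 + a11 + a20 + a32 ∧ 1 ≤ a03 + a12 + a20 + a31) ∨
    (1 ≤ a00 + a12 + a21 + a33 ∧ 1 ≤ a00 + a13 + a21 + a32 ∧ 1 ≤ a02 + a10 + a21 + a33 ∧ 1 ≤ a02 + a13 + a21 + a30 ∧ 1 ≤ a03 + a10 + a21 + a32 ∧ 1 ≤ a03 + a12 + a21 + a30) ∨
    (1 ≤ a00 + a11 + a22 + a33 ∧ 1 ≤ a00 + a13 + a22 + a31 ∧ 1 ≤ a01 + a10 + a22 + a33 ∧ 1 ≤ a01 + a13 + a22 + a30 ∧ 1 ≤ a03 + a10 + a22 + a31 ∧ 1 ≤ a03 + a11 + a22 + a30) ∨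
    (1 ≤ a00 + a11 + a23 + a32 ∧ 1 ≤ a00 + a12 + a23 + a31 ∧ 1 ≤ a01 + a10 + a23 + a32 ∧ 1 ≤ a01 + a12 + a23 + a30 ∧ 1 ≤ a02 + a10 + a23 + a31 ∧ 1 ≤ a02 + a11 + a23 + a30) ∨
    (1 ≤ a01 + a12 + a23 + a30 ∧ 1 ≤ a01 + a13 + a22 + a30 ∧ 1 ≤ a02 + a11 + a23 + a30 ∧ 1 ≤ a02 + a13 + a21 + a30 ∧ 1 ≤ a03 + a11 + a22 + a30 ∧ 1 ≤ a03 + a12 + a21 + a30) ∨
    (1 ≤ a00 + a12 + a23 + a31 ∧ 1 ≤ a00 + a13 + a22 + a31 ∧ 1 ≤ a02 + a10 + a23 + a31 ∧ 1 ≤ a02 + a13 + a20 + a31 ∧ 1 ≤ a03 + a10 + a22 + a31 ∧ 1 ≤ a03 + a12 + a20 + a31) ∨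
    (1 ≤ a00 + a11 + a23 + a32 ∧ 1 ≤ a00 + a13 + a21 + a32 ∧ 1 ≤ a01 + a10 + a23 + a32 ∧ 1 ≤ a01 + a13 + a20 + a32 ∧ 1 ≤ a03 + a10 + a21 + a32 ∧ 1 ≤ a03 + a11 + a20 + a32) ∨
    (1 ≤ a00 + a11 + a22 + a33 ∧ 1 ≤ a00 + a12 + a21 + a33 ∧ 1 ≤ a01 + a10 + a22 + a33 ∧ 1 ≤ a01 + a12 + a20 + a33 ∧ 1 ≤ a02 + a10 + a21 + a33 ∧ 1 ≤ a02 + a11 + a20 + a33) := by
  have key := cover (fun i j => (![![a00, a01, a02, a03], ![a10, a11, a12, a13],
    ![a20, a21, a22, a23], ![a30, a31, a32, a33]] : Fin 4 → Fin 4 → ℤ) i j) ?_ ?_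
  · obtain ⟨i, j, hij⟩ := key
    fin_cases i <;> fin_cases j
    · left
      refine ⟨?_, ?_, ?_, ?_, ?_, ?_⟩
      · have := hij ![0, 1, 2, 3] (by decide) (by rfl)
        simpa [Fin.sum_univ_four] using this
      · have := hij ![0, 1, 3, 2] (by decide) (by rfl)
        simpa [Fin.sum_univ_four] using this
      · have := hij ![0, 2, 1, 3] (by decide) (by rfl)
        simpa [Fin.sum_univ_four] using this
      · have := hij ![0, 2, 3, 1] (by decide) (by rfl)
        simpa [Fin.sum_univ_four] using this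
      · have := hij ![0, 3, 1, 2] (by decide) (by rfl)
        simpa [Fin.sum_univ_four] using this
      · have := hij ![0, 3, 2, 1] (by decide) (by rfl)
        simpa [Fin.sum_univ_four] using this
    · right; left
      refine ⟨?_, ?_, ?_, ?_, ?_, ?_⟩
      · have := hij ![1, 0, 2, 3] (by decide) (by rfl)
        simpa [Fin.sum_univ_four] using this
      · have := hij ![1, 0, 3, 2] (by decide) (by rfl)
        simpa [Fin.sum_univ_four] using this
      · have := hij ![1, 2, 0, 3] (by decide) (by rfl)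
        simpa [Fin.sum_univ_four] using this
      · have := hij ![1, 2, 3, 0] (by decide) (by rfl)
        simpa [Fin.sum_univ_four] using this
      · have := hij ![1, 3, 0, 2] (by decide) (by rfl)
        simpa [Fin.sum_univ_four] using this
      · have := hij ![1, 3, 2, 0] (by decide) (by rfl)
        simpa [Fin.sum_univ_four] using this
    · right; right; left
      refine ⟨?_, ?_, ?_, ?_, ?_, ?_⟩
      · have := hij ![2, 0, 1, 3] (by decide) (by rfl)
        simpa [Fin.sum_univ_four] using this
      · have := hij ![2, 0, 3, 1] (by decide) (by rfl)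
        simpa [Fin.sum_univ_four] using this
      · have := hij ![2, 1, 0, 3] (by decide) (by rfl)
        simpa [Fin.sum_univ_four] using this
      · have := hij ![2, 1, 3, 0] (by decide) (by rfl)
        simpa [Fin.sum_univ_four] using this
      · have := hij ![2, 3, 0, 1] (by decide) (by rfl)
        simpa [Fin.sum_univ_four] using this
      · have := hij ![2, 3, 1, 0] (by decide) (by rfl)
        simpa [Fin.sum_univ_four] using this
    · right; right; right; left
      refine ⟨?_, ?_, ?_, ?_, ?_, ?_⟩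
      · have := hij ![3, 0, 1, 2] (by decide) (by rfl)
        simpa [Fin.sum_univ_four] using this
      · have := hij ![3, 0, 2, 1] (by decide) (by rfl)
        simpa [Fin.sum_univ_four] using this
      · have := hij ![3, 1, 0, 2] (by decide) (by rfl)
        simpa [Fin.sum_univ_four] using this
      · have := hij ![3, 1, 2, 0] (by decide) (by rfl)
        simpa [Fin.sum_univ_four] using this
      · have := hij ![3, 2, 0, 1] (by decide) (by rfl)
        simpa [Fin.sum_univ_four] using this
      · have := hij ![3, 2, 1, 0] (by decide) (by rfl)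
        simpa [Fin.sum_univ_four] using this
    · right; right; right; right; left
      refine ⟨?_, ?_, ?_, ?_, ?_, ?_⟩
      · have := hij ![1, 0, 2, 3] (by decide) (by rfl)
        simpa [Fin.sum_univ_four] using this
      · have := hij ![1, 0, 3, 2] (by decide) (by rfl)
        simpa [Fin.sum_univ_four] using this
      · have := hij ![2, 0, 1, 3] (by decide) (by rfl)
        simpa [Fin.sum_univ_four] using this
      · have := hij ![2, 0, 3, 1] (by decide) (by rfl)
        simpa [Fin.sum_univ_four] using this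
      · have := hij ![3, 0, 1, 2] (by decide) (by rfl)
        simpa [Fin.sum_univ_four] using this
      · have := hij ![3, 0, 2, 1] (by decide) (by rfl)
        simpa [Fin.sum_univ_four] using this
    · right; right; right; right; right; left
      refine ⟨?_, ?_, ?_, ?_, ?_, ?_⟩
      · have := hij ![0, 1, 2, 3] (by decide) (by rfl)
        simpa [Fin.sum_univ_four] using this
      · have := hij ![0, 1, 3, 2] (by decide) (by rfl)
        simpa [Fin.sum_univ_four] using this
      · have := hij ![2, 1, 0, 3] (by decide) (by rfl)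
        simpa [Fin.sum_univ_four] using this
      · have := hij ![2, 1, 3, 0] (by decide) (by rfl)
        simpa [Fin.sum_univ_four] using this
      · have := hij ![3, 1, 0, 2] (by decide) (by rfl)
        simpa [Fin.sum_univ_four] using this
      · have := hij ![3, 1, 2, 0] (by decide) (by rfl)
        simpa [Fin.sum_univ_four] using this
    · right; right; right; right; right; right; left
      refine ⟨?_, ?_, ?_, ?_, ?_, ?_⟩
      · have := hij ![0, 2, 1, 3] (by decide) (by rfl)
        simpa [Fin.sum_univ_four] using this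
      · have := hij ![0, 2, 3, 1] (by decide) (by rfl)
        simpa [Fin.sum_univ_four] using this
      · have := hij ![1, 2, 0, 3] (by decide) (by rfl)
        simpa [Fin.sum_univ_four] using this
      · have := hij ![1, 2, 3, 0] (by decide) (by rfl)
        simpa [Fin.sum_univ_four] using this
      · have := hij ![3, 2, 0, 1] (by decide) (by rfl)
        simpa [Fin.sum_univ_four] using this
      · have := hij ![3, 2, 1, 0] (by decide) (by rfl)
        simpa [Fin.sum_univ_four] using this
    · right; right; right; right; right; right; right; left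
      refine ⟨?_, ?_, ?_, ?_, ?_, ?_⟩
      · have := hij ![0, 3, 1, 2] (by decide) (by rfl)
        simpa [Fin.sum_univ_four] using this
      · have := hij ![0, 3, 2, 1] (by decide) (by rfl)
        simpa [Fin.sum_univ_four] using this
      · have := hij ![1, 3, 0, 2] (by decide) (by rfl)
        simpa [Fin.sum_univ_four] using this
      · have := hij ![1, 3, 2, 0] (by decide) (by rfl)
        simpa [Fin.sum_univ_four] using this
      · have := hij ![2, 3, 0, 1] (by decide) (by rfl)
        simpa [Fin.sum_univ_four] using this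
      · have := hij ![2, 3, 1, 0] (by decide) (by rfl)
        simpa [Fin.sum_univ_four] using this
    · right; right; right; right; right; right; right; right; left
      refine ⟨?_, ?_, ?_, ?_, ?_, ?_⟩
      · have := hij ![1, 2, 0, 3] (by decide) (by rfl)
        simpa [Fin.sum_univ_four] using this
      · have := hij ![1, 3, 0, 2] (by decide) (by rfl)
        simpa [Fin.sum_univ_four] using this
      · have := hij ![2, 1, 0, 3] (by decide) (by rfl)
        simpa [Fin.sum_univ_four] using this
      · have := hij ![2, 3, 0, 1] (by decide) (by rfl)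
        simpa [Fin.sum_univ_four] using this
      · have := hij ![3, 1, 0, 2] (by decide) (by rfl)
        simpa [Fin.sum_univ_four] using this
      · have := hij ![3, 2, 0, 1] (by decide) (by rfl)
        simpa [Fin.sum_univ_four] using this
    · right; right; right; right; right; right; right; right; right; left
      refine ⟨?_, ?_, ?_, ?_, ?_, ?_⟩
      · have := hij ![0, 2, 1, 3] (by decide) (by rfl)
        simpa [Fin.sum_univ_four] using this
      · have := hij ![0, 3, 1, 2] (by decide) (by rfl)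
        simpa [Fin.sum_univ_four] using this
      · have := hij ![2, 0, 1, 3] (by decide) (by rfl)
        simpa [Fin.sum_univ_four] using this
      · have := hij ![2, 3, 1, 0] (by decide) (by rfl)
        simpa [Fin.sum_univ_four] using this
      · have := hij ![3, 0, 1, 2] (by decide) (by rfl)
        simpa [Fin.sum_univ_four] using this
      · have := hij ![3, 2, 1, 0] (by decide) (by rfl)
        simpa [Fin.sum_univ_four] using this
    · right; right; right; right; right; right; right; right; right; right; left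
      refine ⟨?_, ?_, ?_, ?_, ?_, ?_⟩
      · have := hij ![0, 1, 2, 3] (by decide) (by rfl)
        simpa [Fin.sum_univ_four] using this
      · have := hij ![0, 3, 2, 1] (by decide) (by rfl)
        simpa [Fin.sum_univ_four] using this
      · have := hij ![1, 0, 2, 3] (by decide) (by rfl)
        simpa [Fin.sum_univ_four] using this
      · have := hij ![1, 3, 2, 0] (by decide) (by rfl)
        simpa [Fin.sum_univ_four] using this
      · have := hij ![3, 0, 2, 1] (by decide) (by rfl)
        simpa [Fin.sum_univ_four] using this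
      · have := hij ![3, 1, 2, 0] (by decide) (by rfl)
        simpa [Fin.sum_univ_four] using this
    · right; right; right; right; right; right; right; right; right; right; right; left
      refine ⟨?_, ?_, ?_, ?_, ?_, ?_⟩
      · have := hij ![0, 1, 3, 2] (by decide) (by rfl)
        simpa [Fin.sum_univ_four] using this
      · have := hij ![0, 2, 3, 1] (by decide) (by rfl)
        simpa [Fin.sum_univ_four] using this
      · have := hij ![1, 0, 3, 2] (by decide) (by rfl)
        simpa [Fin.sum_univ_four] using this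
      · have := hij ![1, 2, 3, 0] (by decide) (by rfl)
        simpa [Fin.sum_univ_four] using this
      · have := hij ![2, 0, 3, 1] (by decide) (by rfl)
        simpa [Fin.sum_univ_four] using this
      · have := hij ![2, 1, 3, 0] (by decide) (by rfl)
        simpa [Fin.sum_univ_four] using this
    · right; right; right; right; right; right; right; right; right; right; right; right; left
      refine ⟨?_, ?_, ?_, ?_, ?_, ?_⟩
      · have := hij ![1, 2, 3, 0] (by decide) (by rfl)
        simpa [Fin.sum_univ_four] using this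
      · have := hij ![1, 3, 2, 0] (by decide) (by rfl)
        simpa [Fin.sum_univ_four] using this
      · have := hij ![2, 1, 3, 0] (by decide) (by rfl)
        simpa [Fin.sum_univ_four] using this
      · have := hij ![2, 3, 1, 0] (by decide) (by rfl)
        simpa [Fin.sum_univ_four] using this
      · have := hij ![3, 1, 2, 0] (by decide) (by rfl)
        simpa [Fin.sum_univ_four] using this
      · have := hij ![3, 2, 1, 0] (by decide) (by rfl)
        simpa [Fin.sum_univ_four] using this
    · right; right; right; right; right; right; right; right; right; right; right; right; right; left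
      refine ⟨?_, ?_, ?_, ?_, ?_, ?_⟩
      · have := hij ![0, 2, 3, 1] (by decide) (by rfl)
        simpa [Fin.sum_univ_four] using this
      · have := hij ![0, 3, 2, 1] (by decide) (by rfl)
        simpa [Fin.sum_univ_four] using this
      · have := hij ![2, 0, 3, 1] (by decide) (by rfl)
        simpa [Fin.sum_univ_four] using this
      · have := hij ![2, 3, 0, 1] (by decide) (by rfl)
        simpa [Fin.sum_univ_four] using this
      · have := hij ![3, 0, 2, 1] (by decide) (by rfl)
        simpa [Fin.sum_univ_four] using this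
      · have := hij ![3, 2, 0, 1] (by decide) (by rfl)
        simpa [Fin.sum_univ_four] using this
    · right; right; right; right; right; right; right; right; right; right; right; right; right; right; left
      refine ⟨?_, ?_, ?_, ?_, ?_, ?_⟩
      · have := hij ![0, 1, 3, 2] (by decide) (by rfl)
        simpa [Fin.sum_univ_four] using this
      · have := hij ![0, 3, 1, 2] (by decide) (by rfl)
        simpa [Fin.sum_univ_four] using this
      · have := hij ![1, 0, 3, 2] (by decide) (by rfl)
        simpa [Fin.sum_univ_four] using this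
      · have := hij ![1, 3, 0, 2] (by decide) (by rfl)
        simpa [Fin.sum_univ_four] using this
      · have := hij ![3, 0, 1, 2] (by decide) (by rfl)
        simpa [Fin.sum_univ_four] using this
      · have := hij ![3, 1, 0, 2] (by decide) (by rfl)
        simpa [Fin.sum_univ_four] using this
    · right; right; right; right; right; right; right; right; right; right; right; right; right; right; right
      refine ⟨?_, ?_, ?_, ?_, ?_, ?_⟩
      · have := hij ![0, 1, 2, 3] (by decide) (by rfl)
        simpa [Fin.sum_univ_four] using this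
      · have := hij ![0, 2, 1, 3] (by decide) (by rfl)
        simpa [Fin.sum_univ_four] using this
      · have := hij ![1, 0, 2, 3] (by decide) (by rfl)
        simpa [Fin.sum_univ_four] using this
      · have := hij ![1, 2, 0, 3] (by decide) (by rfl)
        simpa [Fin.sum_univ_four] using this
      · have := hij ![2, 0, 1, 3] (by decide) (by rfl)
        simpa [Fin.sum_univ_four] using this
      · have := hij ![2, 1, 0, 3] (by decide) (by rfl)
        simpa [Fin.sum_univ_four] using this
  · intro f hf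
    have e01 : f 0 ≠ f 1 := fun h => absurd (hf h) (by decide)
    have e02 : f 0 ≠ f 2 := fun h => absurd (hf h) (by decide)
    have e03 : f 0 ≠ f 3 := fun h => absurd (hf h) (by decide)
    have e12 : f 1 ≠ f 2 := fun h => absurd (hf h) (by decide)
    have e13 : f 1 ≠ f 3 := fun h => absurd (hf h) (by decide)
    have e23 : f 2 ≠ f 3 := fun h => absurd (hf h) (by decide)
    rw [Fin.sum_univ_four]
    generalize f 0 = p at *
    generalize f 1 = q at *
    generalize f 2 = r at *
    generalize f 3 = s at *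
    clear hf
    fin_cases p <;> fin_cases q <;> first | exact absurd rfl e01 | skip
    all_goals fin_cases r
    all_goals first | exact absurd rfl e02 | exact absurd rfl e12 | skip
    all_goals fin_cases s
    all_goals first | exact absurd rfl e03 | exact absurd rfl e13 | exact absurd rfl e23 | skip
    · simpa using h0
    · simpa using h1
    · simpa using h2
    · simpa using h3
    · simpa using h4
    · simpa using h5
    · simpa using h6
    · simpa using h7
    · simpa using h8
    · simpa using h9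
    · simpa using h10
    · simpa using h11
    · simpa using h12
    · simpa using h13
    · simpa using h14
    · simpa using h15
    · simpa using h16
    · simpa using h17
    · simpa using h18
    · simpa using h19
    · simpa using h20
    · simpa using h21
    · simpa using h22
    · simpa using h23
  · simp only [Fin.sum_univ_four]
    simp
    linarith

end Q46.Kim
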