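import Pool.Agent.Q46.Kim.Net

set_option autoImplicit false
set_option linter.unusedVariables false
set_option linter.unusedSectionVars false
set_option linter.unusedSimpArgs false

namespace Q46.Kim

open Finset

variable {V : Type} [Fintype V] [DecidableEq V]

/-- the set of network points -/
def SS (T : SimpleGraph V) [DecidableRel T.Adj] : Set ((V × V × G → ℤ) × ℤ) :=
  {p | ∃ g : V → V → G, (∀ v w : V, g v w = g w v) ∧
    (∀ v : V, (¬ ∃! w : V, T.Adj v w) → (∑ w : V, (if T.Adj v w then g v w else (0 : G))) = 0) ∧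
    p = vec T g}

theorem pp_closure (T : SimpleGraph V) [DecidableRel T.Adj] (z : (V × V × G → ℤ) × ℤ)
    (hz : z ∈ AddSubmonoid.closure (SS T)) : PP T z := by
  induction hz using AddSubmonoid.closure_induction with
  | mem x hx =>
    obtain ⟨g, h1, h2, rfl⟩ := hx
    exact pp_net T g h1 h2
  | zero => exact PP.zero T
  | add x y _ _ hx hy => exact hx.add hy

theorem rr_closure (T : SimpleGraph V) [DecidableRel T.Adj] (z : (V × V × G → ℤ) × ℤ)
    (hz : z ∈ AddSubgroup.closure (SS T)) : RR T z := by
  induction hz using AddSubgroup.closure_induction with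
  | mem x hx =>
    obtain ⟨g, h1, h2, rfl⟩ := hx
    exact rr_net T g h2
  | zero => exact RR.zero T
  | add x y _ _ hx hy => exact hx.add hy
  | neg x _ hx => exact hx.neg

/-- local solution at a vertex -/
theorem local_sol (T : SimpleGraph V) [DecidableRel T.Adj] (z : (V × V × G → ℤ) × ℤ) (hP : PP T z)
    (hR : RR T z) (m : ℕ) (hm : z.2 = m) (v : V) :
    ∃ a : Fin m → V → G, (∀ w, T.Adj v w → ∀ h, cnt (fun i => a i w) h = z.1 (v, w, h)) ∧
      ((¬ ∃! w, T.Adj v w) → ∀ i, (∑ w : V, (if T.Adj v w then a i w else (0 : G))) = 0) := by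
  by_cases hv : ∃! w, T.Adj v w
  · have h1 : ∀ w, ∃ s : Fin m → G, T.Adj v w → ∀ h, cnt s h = z.1 (v, w, h) := by
      intro w
      by_cases hw : T.Adj v w
      · have hd := hP.dist v w hw
        rw [hm] at hd
        obtain ⟨s, hs⟩ := exists_enum m _ hd
        exact ⟨s, fun _ => hs⟩
      · exact ⟨fun _ => 0, fun h => absurd h hw⟩
    choose s hs using h1
    exact ⟨fun i w => s w i, fun w hw h => hs w hw h, fun h => absurd hv h⟩
  · have hd : ∀ w ∈ nb T v, IsDist (m : ℤ) (fun h => z.1 (v, w, h)) := by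
      intro w hw
      have hw' : T.Adj v w := by
        unfold nb at hw
        rw [Finset.mem_toList] at hw
        simpa using hw
      rw [← hm]
      exact hP.dist v w hw'
    have hnd : (nb T v).Nodup := Finset.nodup_toList _
    have vA := hP.vA v hv
    have vB := hP.vB v hv
    have vC := hP.vC v hv
    have pA := hR.pA v hv
    have pB := hR.pB v hv
    unfold Vx at vA vB vC
    rw [hm] at vA vB vC
    have hmn : (0 : ℤ) ≤ m := by positivity
    have e1 : mk (m : ℤ) 0 0 0 (0, 0) = m := by simp [mk]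
    have e2 : mk (m : ℤ) 0 0 0 (0, 1) = 0 := by simp [mk]
    have e3 : mk (m : ℤ) 0 0 0 (1, 0) = 0 := by simp [mk]
    have e4 : mk (m : ℤ) 0 0 0 (1, 1) = 0 := by simp [mk]
    obtain ⟨s1, s2, s3, s4⟩ := mk_spec (m : ℤ) 0 0 0 (by unfold Tet; omega) (by norm_num)
    obtain ⟨g, g1, g2⟩ := chain m (fun w h => z.1 (v, w, h)) (nb T v) hnd hd (mk m 0 0 0) s1
      (by rw [s2]; exact vA) (by rw [s3]; exact vB) (by rw [s4]; exact vC)
      (by rw [s2, zero_add]; exact pA) (by rw [s3, zero_add]; exact pB) (fun _ => 0) (fun h => by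
        show (∑ _i : Fin m, if (0 : G) = h then (1 : ℤ) else 0) = _
        rcases cases4 h with h | h | h | h <;> subst h
        · rw [e1, if_pos (by decide)]; simp
        · rw [e2, if_neg (by decide)]; simp
        · rw [e3, if_neg (by decide)]; simp
        · rw [e4, if_neg (by decide)]; simp)
    refine ⟨g, fun w hw h => ?_, fun _ i => ?_⟩
    · refine g2 w ?_ h
      unfold nb
      rw [Finset.mem_toList]
      simpa using hw
    · rw [← Finset.sum_filter]
      have := g1 i
      unfold nb at this
      rwa [Finset.sum_map_toList] at this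

theorem main (T : SimpleGraph V) [DecidableRel T.Adj] (hT : T.IsAcyclic) (z : (V × V × G → ℤ) × ℤ)
    (hP : PP T z) (hR : RR T z) : z ∈ AddSubmonoid.closure (SS T) := by
  obtain ⟨m, hm⟩ := Int.eq_ofNat_of_zero_le hP.nonneg
  have hm' : z.2 = (m : ℤ) := hm
  choose a a1 a2 using fun v => local_sol T z hP hR m hm' v
  obtain ⟨π, hπ⟩ := glue m a T hT (fun v w hvw g => by
    rw [a1 v w hvw, a1 w v hvw.symm, hP.symm])
  have hsum : z = ∑ i : Fin m, vec T (fun v w => if T.Adj v w then a v (π v i) w else 0) := by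
    apply Prod.ext
    · rw [Prod.fst_sum]
      funext x
      obtain ⟨v, w, h⟩ := x
      rw [Finset.sum_apply]
      by_cases hvw : T.Adj v w
      · rw [← a1 v w hvw h, ← cnt_perm (fun i => a v i w) (π v) h]
        unfold cnt
        refine Finset.sum_congr rfl fun i _ => ?_
        simp [vec, hvw]
      · rw [hP.nonadj v w h hvw]
        symm
        refine Finset.sum_eq_zero fun i _ => ?_
        simp [vec, hvw]
    · rw [Prod.snd_sum, hm']
      simp [vec]
  rw [hsum]
  refine sum_mem fun i _ => AddSubmonoid.subset_closure ⟨_, ?_, ?_, rfl⟩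
  · intro v w
    by_cases hvw : T.Adj v w
    · have hwv := hvw.symm
      simp only [hvw, hwv, if_true]
      exact hπ v w hvw i
    · have hwv : ¬ T.Adj w v := fun h => hvw h.symm
      simp only [hvw, hwv, if_false]
  · intro v hv
    refine Eq.trans (Finset.sum_congr rfl fun w _ => ?_) (a2 v hv (π v i))
    by_cases hvw : T.Adj v w <;> simp [hvw]

end Q46.Kim
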