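import Pool.Agent.Q46.Kim.Chain

set_option autoImplicit false

namespace Q46.Kim

open Finset

theorem glue_aux {V : Type*} [Finite V] (m : ℕ) (a : V → Fin m → V → G) (n : ℕ) :
    ∀ T : SimpleGraph V, T.IsAcyclic → T.edgeSet.ncard = n →
    (∀ v w, T.Adj v w → ∀ g, cnt (fun i => a v i w) g = cnt (fun i => a w i v) g) →
    ∃ π : V → Equiv.Perm (Fin m), ∀ v w, T.Adj v w → ∀ i, a v (π v i) w = a w (π w i) v := by
  induction n using Nat.strong_induction_on with
  | _ n ih =>
    intro T hT hn h
    by_cases he : T.edgeSet = ∅
    · refine ⟨fun _ => 1, fun v w hvw => ?_⟩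
      have : s(v, w) ∈ T.edgeSet := hvw
      rw [he] at this
      exact absurd this (by simp)
    · obtain ⟨e, he⟩ := Set.nonempty_iff_ne_empty.2 he
      induction e using Sym2.ind with
      | _ v w =>
        have hvw : T.Adj v w := he
        have hbr : ¬ (T.deleteEdges {s(v, w)}).Reachable v w :=
          SimpleGraph.isBridge_iff.1 (SimpleGraph.isAcyclic_iff_forall_adj_isBridge.1 hT hvw)
        have hle : T.deleteEdges {s(v, w)} ≤ T := SimpleGraph.deleteEdges_le _
        have hlt : (T.deleteEdges {s(v, w)}).edgeSet.ncard < n := by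
          rw [← hn]
          apply Set.ncard_lt_ncard _ (Set.toFinite _)
          refine ⟨SimpleGraph.edgeSet_mono hle, fun hh => ?_⟩
          have := hh he
          rw [SimpleGraph.edgeSet_deleteEdges] at this
          exact this.2 rfl
        obtain ⟨π, hπ⟩ := ih _ hlt _ (hT.anti hle) rfl (fun v' w' h' => h v' w' (hle h'))
        obtain ⟨σ, hσ⟩ := align (fun i => a v (π v i) w) (fun i => a w (π w i) v) (fun g => by
          rw [cnt_perm (fun i => a v i w), cnt_perm (fun i => a w i v)]
          exact h v w hvw g)
        classical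
        refine ⟨fun u => if (T.deleteEdges {s(v, w)}).Reachable w u then σ.trans (π u) else π u,
          fun u u' huu' i => ?_⟩
        have hww : (T.deleteEdges {s(v, w)}).Reachable w w := SimpleGraph.Reachable.refl _
        have hwv : ¬ (T.deleteEdges {s(v, w)}).Reachable w v := fun hh => hbr hh.symm
        by_cases h1 : s(u, u') = s(v, w)
        · rcases Sym2.eq_iff.1 h1 with ⟨rfl, rfl⟩ | ⟨rfl, rfl⟩
          · simp only [hww, hwv, if_true, if_false, Equiv.trans_apply]
            exact (hσ i).symm
          · simp only [hww, hwv, if_true, if_false, Equiv.trans_apply]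
            exact hσ i
        · have h2 : (T.deleteEdges {s(v, w)}).Adj u u' := by
            rw [SimpleGraph.deleteEdges_adj]
            exact ⟨huu', fun h3 => h1 h3⟩
          by_cases h3 : (T.deleteEdges {s(v, w)}).Reachable w u
          · have h4 : (T.deleteEdges {s(v, w)}).Reachable w u' := h3.trans h2.reachable
            simp only [h3, h4, if_true, Equiv.trans_apply]
            exact hπ u u' h2 _
          · have h4 : ¬ (T.deleteEdges {s(v, w)}).Reachable w u' := fun h5 =>
              h3 (h5.trans h2.symm.reachable)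
            simp only [h3, h4, if_false]
            exact hπ u u' h2 _

theorem glue {V : Type*} [Finite V] (m : ℕ) (a : V → Fin m → V → G) (T : SimpleGraph V)
    (hT : T.IsAcyclic)
    (h : ∀ v w, T.Adj v w → ∀ g, cnt (fun i => a v i w) g = cnt (fun i => a w i v) g) :
    ∃ π : V → Equiv.Perm (Fin m), ∀ v w, T.Adj v w → ∀ i, a v (π v i) w = a w (π w i) v :=
  glue_aux m a _ T hT rfl h

/-- every distribution has an enumeration -/
theorem exists_enum (m : ℕ) : ∀ y : G → ℤ, IsDist m y → ∃ s : Fin m → G, ∀ h, cnt s h = y h := by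
  induction m with
  | zero =>
    intro y hy
    have hy' : IsDist 0 y := by simpa using hy
    exact ⟨Fin.elim0, fun h => by rw [dist_zero hy']; simp [cnt]⟩
  | succ m ih =>
    intro y hy
    have : ∃ g : G, 1 ≤ y g := by
      by_contra hcon
      push Not at hcon
      have h1 := hcon (0, 0)
      have h2 := hcon (0, 1)
      have h3 := hcon (1, 0)
      have h4 := hcon (1, 1)
      unfold IsDist at hy
      push_cast at hy
      omega
    obtain ⟨g, hg⟩ := this
    have hy' := dist_sub _ y hy g hg
    have e : ((m + 1 : ℕ) : ℤ) - 1 = m := by push_cast; ring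
    rw [e] at hy'
    obtain ⟨s, hs⟩ := ih _ hy'
    exact ⟨Fin.cons g s, fun h => by rw [cnt_cons, hs]; ring⟩

end Q46.Kim
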