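import Mathlib

/-!
Interval recursion for the cycle polytope of `K_{3,n}`: `lo m L` and `hi m L` are the bounds of the
values that the closing coordinate can take, given the list `L` of the other coordinates.
-/

set_option autoImplicit false

namespace Q46.Kim

/-- lower and upper bound -/
def bd (m : ℤ) : List ℤ → ℤ × ℤ
  | [] => (0, 0)
  | X :: l => (max ((bd m l).1 - X) (X - (bd m l).2), min ((bd m l).2 + X) (2 * m - X - (bd m l).1))

def lo (m : ℤ) (l : List ℤ) : ℤ := (bd m l).1
def hi (m : ℤ) (l : List ℤ) : ℤ := (bd m l).2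

@[simp] theorem lo_nil (m : ℤ) : lo m [] = 0 := rfl
@[simp] theorem hi_nil (m : ℤ) : hi m [] = 0 := rfl
theorem lo_cons (m X : ℤ) (l : List ℤ) : lo m (X :: l) = max (lo m l - X) (X - hi m l) := rfl
theorem hi_cons (m X : ℤ) (l : List ℤ) :
    hi m (X :: l) = min (hi m l + X) (2 * m - X - lo m l) := rfl

/-- homogeneity -/
theorem bd_smul (k m : ℤ) (hk : 0 ≤ k) (l : List ℤ) :
    lo (k * m) (l.map (k * ·)) = k * lo m l ∧ hi (k * m) (l.map (k * ·)) = k * hi m l := by
  induction l with
  | nil => simp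
  | cons X l ih =>
    obtain ⟨h1, h2⟩ := ih
    simp only [List.map_cons, lo_cons, hi_cons, h1, h2]
    constructor
    · rw [mul_max_of_nonneg _ _ hk]; congr 1 <;> ring
    · rw [mul_min_of_nonneg _ _ hk]; congr 1 <;> ring

/-- subadditivity -/
theorem bd_add {ι : Type*} (m m' : ℤ) (l : List ι) (f g : ι → ℤ) :
    lo (m + m') (l.map (fun i => f i + g i)) ≤ lo m (l.map f) + lo m' (l.map g) ∧
    hi m (l.map f) + hi m' (l.map g) ≤ hi (m + m') (l.map (fun i => f i + g i)) := by
  induction l with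
  | nil => simp
  | cons X l ih =>
    obtain ⟨h1, h2⟩ := ih
    simp only [List.map_cons, lo_cons, hi_cons]
    omega

/-- values of a network: the list has entries `0` or `1` -/
theorem bd_network {ι : Type*} (l : List ι) (f : ι → ℤ) (hf : ∀ i, f i = 0 ∨ f i = 1) :
    lo 1 (l.map f) ≤ (l.map f).sum % 2 ∧ (l.map f).sum % 2 ≤ hi 1 (l.map f) := by
  induction l with
  | nil => simp
  | cons X l ih =>
    simp only [List.map_cons, lo_cons, hi_cons, List.sum_cons]
    have := hf X
    omega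

theorem parity {ι : Type*} (m : ℤ) (l : List ι) (f : ι → ℤ) :
    (lo m (l.map f) - (l.map f).sum) % 2 = 0 ∧ (hi m (l.map f) - (l.map f).sum) % 2 = 0 := by
  induction l with
  | nil => simp
  | cons X l ih =>
    simp only [List.map_cons, lo_cons, hi_cons, List.sum_cons]
    omega

/-- bounds -/
theorem bounds {ι : Type*} (m : ℤ) (hm : 0 ≤ m) (l : List ι) (f : ι → ℤ)
    (hf : ∀ i ∈ l, 0 ≤ f i ∧ f i ≤ m) :
    lo m (l.map f) ≤ hi m (l.map f) ∧ lo m (l.map f) ≤ m ∧ 0 ≤ hi m (l.map f) := by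
  induction l with
  | nil => simpa using hm
  | cons X l ih =>
    have := hf X (by simp)
    have := ih (fun i hi => hf i (by simp [hi]))
    simp only [List.map_cons, lo_cons, hi_cons]
    omega

/-- The relations between the intervals of the three characters. -/
def Rel (m : ℤ) (la ha lb hb lc hc : ℤ) : Prop :=
  la ≤ hb + lc ∧ la ≤ hc + lb ∧ lb ≤ ha + lc ∧ lb ≤ hc + la ∧ lc ≤ ha + lb ∧ lc ≤ hb + la ∧
  ha ≤ hb + hc ∧ hb ≤ ha + hc ∧ hc ≤ ha + hb ∧
  ha + lb + lc ≤ 2 * m ∧ hb + la + lc ≤ 2 * m ∧ hc + la + lb ≤ 2 * m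

/-- The tetrahedron. -/
def Tet (m A B C : ℤ) : Prop := A ≤ B + C ∧ B ≤ A + C ∧ C ≤ A + B ∧ A + B + C ≤ 2 * m

theorem rel {ι : Type*} (m : ℤ) (hm : 0 ≤ m) (l : List ι) (f g h : ι → ℤ)
    (hT : ∀ i ∈ l, Tet m (f i) (g i) (h i)) :
    Rel m (lo m (l.map f)) (hi m (l.map f)) (lo m (l.map g)) (hi m (l.map g))
      (lo m (l.map h)) (hi m (l.map h)) := by
  induction l with
  | nil => simp only [Rel, List.map_nil, lo_nil, hi_nil]; omega
  | cons X l ih =>
    have h1 := hT X (by simp)
    have h2 := ih (fun i hi => hT i (by simp [hi]))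
    simp only [List.map_cons, lo_cons, hi_cons]
    unfold Tet at h1
    unfold Rel at h2 ⊢
    generalize lo m (l.map f) = la at *
    generalize hi m (l.map f) = ha at *
    generalize lo m (l.map g) = lb at *
    generalize hi m (l.map g) = hb at *
    generalize lo m (l.map h) = lc at *
    generalize hi m (l.map h) = hc at *
    generalize f X = A at *
    generalize g X = B at *
    generalize h X = C at *
    obtain ⟨a1, a2, a3, a4, a5, a6, a7, a8, a9, a10, a11, a12⟩ := h2
    refine ⟨?_, ?_, ?_, ?_, ?_, ?_, ?_, ?_, ?_, ?_, ?_, ?_⟩ <;> omega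

end Q46.Kim
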