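import Pool.Agent.Q46.Kim.Glue

set_option autoImplicit false
set_option linter.unusedVariables false
set_option linter.unusedSectionVars false
set_option linter.unusedSimpArgs false

namespace Q46.Kim

open Finset

variable {V : Type} [Fintype V] [DecidableEq V]

theorem smul1 (k : ℕ) (p : (V × V × G → ℤ) × ℤ) (x : V × V × G) : (k • p).1 x = (k : ℤ) * p.1 x := by
  rw [Prod.smul_fst, Pi.smul_apply, nsmul_eq_mul]

theorem smul2 (k : ℕ) (p : (V × V × G → ℤ) × ℤ) : (k • p).2 = (k : ℤ) * p.2 := by
  rw [Prod.smul_snd, nsmul_eq_mul]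

/-- neighbours as a list -/
noncomputable def nb (T : SimpleGraph V) [DecidableRel T.Adj] (v : V) : List V :=
  (univ.filter fun w => T.Adj v w).toList

/-- the vertex conditions for a character `c` -/
def Vx (T : SimpleGraph V) [DecidableRel T.Adj] (c : (G → ℤ) → ℤ)
    (p : (V × V × G → ℤ) × ℤ) (v : V) : Prop :=
  lo p.2 ((nb T v).map fun w => c fun h => p.1 (v, w, h)) ≤ 0 ∧
    0 ≤ hi p.2 ((nb T v).map fun w => c fun h => p.1 (v, w, h))

/-- linear conditions satisfied by the elements of the semigroup -/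
structure PP (T : SimpleGraph V) [DecidableRel T.Adj] (p : (V × V × G → ℤ) × ℤ) : Prop where
  nonneg : 0 ≤ p.2
  nonadj : ∀ v w h, ¬ T.Adj v w → p.1 (v, w, h) = 0
  symm : ∀ v w h, p.1 (v, w, h) = p.1 (w, v, h)
  dist : ∀ v w, T.Adj v w → IsDist p.2 (fun h => p.1 (v, w, h))
  vA : ∀ v, (¬ ∃! w, T.Adj v w) → Vx T cA p v
  vB : ∀ v, (¬ ∃! w, T.Adj v w) → Vx T cB p v
  vC : ∀ v, (¬ ∃! w, T.Adj v w) → Vx T cC p v

theorem Vx.zero (T : SimpleGraph V) [DecidableRel T.Adj] (c : (G → ℤ) → ℤ) (hc : c 0 = 0) (v : V) :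
    Vx T c 0 v := by
  unfold Vx
  have h := bd_smul 0 0 le_rfl ((nb T v).map fun _ => (0 : ℤ))
  simp only [List.map_map, zero_mul] at h
  have e : (fun w : V => c fun h => (0 : (V × V × G → ℤ) × ℤ).1 (v, w, h)) = fun _ => (0 : ℤ) := by
    funext w; exact hc
  rw [e]
  have e2 : ((fun x : ℤ => (0 : ℤ)) ∘ fun (_ : V) => (0 : ℤ)) = fun _ => 0 := rfl
  rw [e2] at h
  exact ⟨h.1.le, h.2.ge⟩

theorem Vx.add {T : SimpleGraph V} [DecidableRel T.Adj] {c : (G → ℤ) → ℤ}
    (hc : ∀ f g : G → ℤ, c (fun h => f h + g h) = c f + c g) {p q : (V × V × G → ℤ) × ℤ} {v : V}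
    (hp : Vx T c p v) (hq : Vx T c q v) : Vx T c (p + q) v := by
  unfold Vx at *
  have h := bd_add p.2 q.2 (nb T v) (fun w => c fun h => p.1 (v, w, h))
    (fun w => c fun h => q.1 (v, w, h))
  simp only [Prod.fst_add, Prod.snd_add, Pi.add_apply, hc]
  constructor
  · linarith [h.1, hp.1, hq.1]
  · linarith [h.2, hp.2, hq.2]

theorem Vx.of_smul {T : SimpleGraph V} [DecidableRel T.Adj] {c : (G → ℤ) → ℤ}
    (hc : ∀ (k : ℤ) (f : G → ℤ), c (fun h => k * f h) = k * c f) {p : (V × V × G → ℤ) × ℤ} {v : V}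
    {k : ℕ} (hk : 0 < k) (hp : Vx T c (k • p) v) : Vx T c p v := by
  unfold Vx at *
  have h := bd_smul k p.2 (by positivity) ((nb T v).map fun w => c fun h => p.1 (v, w, h))
  simp only [smul1, smul2, hc] at hp
  rw [List.map_map] at h
  have e : ((fun x : ℤ => (k : ℤ) * x) ∘ fun w : V => c fun h => p.1 (v, w, h)) =
      fun w => (k : ℤ) * c fun h => p.1 (v, w, h) := rfl
  rw [e] at h
  rw [h.1, h.2] at hp
  have hk' : (0 : ℤ) < k := by exact_mod_cast hk
  constructor
  · by_contra hcon
    push Not at hcon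
    have := mul_pos hk' hcon
    linarith [hp.1]
  · by_contra hcon
    push Not at hcon
    have := mul_neg_of_pos_of_neg hk' hcon
    linarith [hp.2]

theorem PP.zero (T : SimpleGraph V) [DecidableRel T.Adj] : PP T (0 : (V × V × G → ℤ) × ℤ) where
  nonneg := le_rfl
  nonadj := fun _ _ _ _ => rfl
  symm := fun _ _ _ => rfl
  dist := fun _ _ _ => by simp [IsDist]
  vA := fun v _ => Vx.zero T cA (by simp [cA]) v
  vB := fun v _ => Vx.zero T cB (by simp [cB]) v
  vC := fun v _ => Vx.zero T cC (by simp [cC]) v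

theorem PP.add {T : SimpleGraph V} [DecidableRel T.Adj] {p q : (V × V × G → ℤ) × ℤ}
    (hp : PP T p) (hq : PP T q) : PP T (p + q) where
  nonneg := add_nonneg hp.nonneg hq.nonneg
  nonadj := fun v w h hvw => by
    show p.1 (v, w, h) + q.1 (v, w, h) = 0
    rw [hp.nonadj v w h hvw, hq.nonadj v w h hvw, add_zero]
  symm := fun v w h => by
    show p.1 (v, w, h) + q.1 (v, w, h) = p.1 (w, v, h) + q.1 (w, v, h)
    rw [hp.symm v w h, hq.symm v w h]
  dist := fun v w hvw => by
    have h1 := hp.dist v w hvw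
    have h2 := hq.dist v w hvw
    simp only [IsDist, Prod.fst_add, Prod.snd_add, Pi.add_apply] at *
    omega
  vA := fun v hv => (hp.vA v hv).add (fun f g => by simp only [cA]; ring) (hq.vA v hv)
  vB := fun v hv => (hp.vB v hv).add (fun f g => by simp only [cB]; ring) (hq.vB v hv)
  vC := fun v hv => (hp.vC v hv).add (fun f g => by simp only [cC]; ring) (hq.vC v hv)

theorem PP.of_smul {T : SimpleGraph V} [DecidableRel T.Adj] {p : (V × V × G → ℤ) × ℤ} {k : ℕ}
    (hk : 0 < k) (hp : PP T (k • p)) : PP T p := by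
  have hk' : (0 : ℤ) < k := by exact_mod_cast hk
  have key : ∀ a : ℤ, 0 ≤ k * a → 0 ≤ a := fun a ha => nonneg_of_mul_nonneg_right ha hk'
  constructor
  · have := hp.nonneg
    rw [smul2] at this
    exact key _ this
  · intro v w h hvw
    have := hp.nonadj v w h hvw
    rw [smul1, mul_eq_zero] at this
    rcases this with h1 | h1
    · omega
    · exact h1
  · intro v w h
    have := hp.symm v w h
    rw [smul1, smul1] at this
    exact mul_left_cancel₀ hk'.ne' this
  · intro v w hvw
    have := hp.dist v w hvw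
    simp only [IsDist, smul1, smul2] at this ⊢
    refine ⟨key _ this.1, key _ this.2.1, key _ this.2.2.1, key _ this.2.2.2.1, ?_⟩
    have h5 := this.2.2.2.2
    apply mul_left_cancel₀ hk'.ne'
    rw [← h5]; ring
  · exact fun v hv => (hp.vA v hv).of_smul (fun k f => by simp only [cA]; ring) hk
  · exact fun v hv => (hp.vB v hv).of_smul (fun k f => by simp only [cB]; ring) hk
  · exact fun v hv => (hp.vC v hv).of_smul (fun k f => by simp only [cC]; ring) hk

/-- parity conditions -/
structure RR (T : SimpleGraph V) [DecidableRel T.Adj] (p : (V × V × G → ℤ) × ℤ) : Prop where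
  pA : ∀ v, (¬ ∃! w, T.Adj v w) → ((nb T v).map fun w => cA fun h => p.1 (v, w, h)).sum % 2 = 0
  pB : ∀ v, (¬ ∃! w, T.Adj v w) → ((nb T v).map fun w => cB fun h => p.1 (v, w, h)).sum % 2 = 0

theorem sum_add' (L : List V) (f g : V → ℤ) :
    (L.map fun w => f w + g w).sum = (L.map f).sum + (L.map g).sum := by
  induction L with
  | nil => simp
  | cons a L ih => simp only [List.map_cons, List.sum_cons, ih]; ring

theorem sum_neg' (L : List V) (f : V → ℤ) :
    (L.map fun w => - f w).sum = - (L.map f).sum := by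
  induction L with
  | nil => simp
  | cons a L ih => simp only [List.map_cons, List.sum_cons, ih]; ring

theorem RR.zero (T : SimpleGraph V) [DecidableRel T.Adj] : RR T (0 : (V × V × G → ℤ) × ℤ) := by
  constructor <;> intro v _ <;> simp [cA, cB]

theorem RR.add {T : SimpleGraph V} [DecidableRel T.Adj] {p q : (V × V × G → ℤ) × ℤ}
    (hp : RR T p) (hq : RR T q) : RR T (p + q) := by
  constructor
  · intro v hv
    have h1 := hp.pA v hv
    have h2 := hq.pA v hv
    have e : (fun w => cA fun h => (p + q).1 (v, w, h)) =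
        fun w => (cA fun h => p.1 (v, w, h)) + cA fun h => q.1 (v, w, h) := by
      funext w
      simp only [cA, Prod.fst_add, Pi.add_apply]; ring
    rw [e, sum_add']
    omega
  · intro v hv
    have h1 := hp.pB v hv
    have h2 := hq.pB v hv
    have e : (fun w => cB fun h => (p + q).1 (v, w, h)) =
        fun w => (cB fun h => p.1 (v, w, h)) + cB fun h => q.1 (v, w, h) := by
      funext w
      simp only [cB, Prod.fst_add, Pi.add_apply]; ring
    rw [e, sum_add']
    omega

theorem RR.neg {T : SimpleGraph V} [DecidableRel T.Adj] {p : (V × V × G → ℤ) × ℤ}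
    (hp : RR T p) : RR T (-p) := by
  constructor
  · intro v hv
    have h1 := hp.pA v hv
    have e : (fun w => cA fun h => (-p).1 (v, w, h)) = fun w => - (cA fun h => p.1 (v, w, h)) := by
      funext w
      simp only [cA, Prod.fst_neg, Pi.neg_apply]; ring
    rw [e, sum_neg']
    omega
  · intro v hv
    have h1 := hp.pB v hv
    have e : (fun w => cB fun h => (-p).1 (v, w, h)) = fun w => - (cB fun h => p.1 (v, w, h)) := by
      funext w
      simp only [cB, Prod.fst_neg, Pi.neg_apply]; ring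
    rw [e, sum_neg']
    omega

end Q46.Kim
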