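import Pool.Agent.Q46.Kim.Main

set_option autoImplicit false
set_option linter.unusedVariables false
set_option linter.unusedSectionVars false
set_option linter.unusedSimpArgs false

namespace Q46.Kim

open Finset

variable {V : Type} [Fintype V] [DecidableEq V]

/-- the point of a network -/
def vec (T : SimpleGraph V) [DecidableRel T.Adj] (g : V → V → G) : (V × V × G → ℤ) × ℤ :=
  Prod.mk (fun x : V × V × G => if T.Adj x.1 x.2.1 ∧ g x.1 x.2.1 = x.2.2 then (1 : ℤ) else 0) (1 : ℤ)

theorem cA_dl : ∀ g : G, cA (fun h => if g = h then (1 : ℤ) else 0) = 0 ∧ g.1 = 0 ∨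
    cA (fun h => if g = h then (1 : ℤ) else 0) = 1 ∧ g.1 = 1 := by decide
theorem cB_dl : ∀ g : G, cB (fun h => if g = h then (1 : ℤ) else 0) = 0 ∧ g.2 = 0 ∨
    cB (fun h => if g = h then (1 : ℤ) else 0) = 1 ∧ g.2 = 1 := by decide
theorem cC_dl : ∀ g : G, cC (fun h => if g = h then (1 : ℤ) else 0) = 0 ∧ g.1 + g.2 = 0 ∨
    cC (fun h => if g = h then (1 : ℤ) else 0) = 1 ∧ g.1 + g.2 = 1 := by decide

theorem vx_aux (T : SimpleGraph V) [DecidableRel T.Adj] (g : V → V → G) (c : (G → ℤ) → ℤ)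
    (hc0 : c (fun _ => 0) = 0) (χ : G →+ ZMod 2)
    (hc : ∀ g : G, c (fun h => if g = h then (1 : ℤ) else 0) = 0 ∧ χ g = 0 ∨
      c (fun h => if g = h then (1 : ℤ) else 0) = 1 ∧ χ g = 1) (v : V)
    (h0 : (∑ w : V, (if T.Adj v w then g v w else (0 : G))) = 0) :
    ((nb T v).map fun w => c fun h => (vec T g).1 (v, w, h)).sum % 2 = 0 ∧
    (∀ w, (c fun h => (vec T g).1 (v, w, h)) = 0 ∨ (c fun h => (vec T g).1 (v, w, h)) = 1) := by
  have e1 : ∀ w, T.Adj v w → (fun h => (vec T g).1 (v, w, h)) = fun h => if g v w = h then (1 : ℤ) else 0 := by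
    intro w hw
    funext h
    simp [vec, hw]
  have e2 : ∀ w, ¬ T.Adj v w → (fun h => (vec T g).1 (v, w, h)) = fun h => (0 : ℤ) := by
    intro w hw
    funext h
    simp [vec, hw]
  constructor
  · have h1 : ((nb T v).map fun w => c fun h => (vec T g).1 (v, w, h)).sum =
        ∑ w ∈ univ.filter (fun w => T.Adj v w), c fun h => (vec T g).1 (v, w, h) := by
      unfold nb
      rw [Finset.sum_map_toList]
    rw [h1]
    have h2 : ((∑ w ∈ univ.filter (fun w => T.Adj v w), c fun h => (vec T g).1 (v, w, h) : ℤ) : ZMod 2) = 0 := by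
      push_cast
      have h3 : ∀ w ∈ univ.filter (fun w => T.Adj v w),
          (((c fun h => (vec T g).1 (v, w, h)) : ℤ) : ZMod 2) = χ (g v w) := by
        intro w hw
        have hw' : T.Adj v w := by simpa using hw
        rw [e1 w hw']
        rcases hc (g v w) with ⟨a, b⟩ | ⟨a, b⟩ <;> rw [a, b] <;> simp
      rw [Finset.sum_congr rfl h3, ← map_sum]
      rw [← Finset.sum_filter] at h0
      rw [h0, map_zero]
    have h4 := (ZMod.intCast_zmod_eq_zero_iff_dvd _ 2).1 h2
    exact Int.emod_eq_zero_of_dvd (by exact_mod_cast h4)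
  · intro w
    by_cases hw : T.Adj v w
    · rw [e1 w hw]
      rcases hc (g v w) with ⟨a, b⟩ | ⟨a, b⟩ <;> simp [a]
    · rw [e2 w hw, hc0]; simp

theorem vx_net (T : SimpleGraph V) [DecidableRel T.Adj] (g : V → V → G) (c : (G → ℤ) → ℤ)
    (hc0 : c (fun _ => 0) = 0) (χ : G →+ ZMod 2)
    (hc : ∀ g : G, c (fun h => if g = h then (1 : ℤ) else 0) = 0 ∧ χ g = 0 ∨
      c (fun h => if g = h then (1 : ℤ) else 0) = 1 ∧ χ g = 1) (v : V)
    (h0 : (∑ w : V, (if T.Adj v w then g v w else (0 : G))) = 0) : Vx T c (vec T g) v := by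
  obtain ⟨h1, h2⟩ := vx_aux T g c hc0 χ hc v h0
  have h3 := bd_network (nb T v) (fun w => c fun h => (vec T g).1 (v, w, h)) h2
  rw [h1] at h3
  exact h3

theorem pp_net (T : SimpleGraph V) [DecidableRel T.Adj] (g : V → V → G)
    (hs : ∀ v w, g v w = g w v)
    (h0 : ∀ v : V, (¬ ∃! w : V, T.Adj v w) → (∑ w : V, (if T.Adj v w then g v w else (0 : G))) = 0) :
    PP T (vec T g) where
  nonneg := by simp [vec]
  nonadj := fun v w h hvw => by simp [vec, hvw]
  symm := fun v w h => by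
    by_cases hvw : T.Adj v w
    · have hwv := hvw.symm
      simp only [vec, hvw, hwv, true_and, hs v w]
    · have hwv : ¬ T.Adj w v := fun h => hvw h.symm
      simp only [vec, hvw, hwv, false_and, if_false]
  dist := fun v w hvw => by
    have e : (fun h => (vec T g).1 (v, w, h)) = fun h => if g v w = h then (1 : ℤ) else 0 := by
      funext h
      simp [vec, hvw]
    rw [e]
    have : ∀ g : G, IsDist 1 (fun h => if g = h then (1 : ℤ) else 0) := by
      unfold IsDist
      decide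
    exact this _
  vA := fun v hv => vx_net T g cA (by simp [cA]) (AddMonoidHom.fst _ _) cA_dl v (h0 v hv)
  vB := fun v hv => vx_net T g cB (by simp [cB]) (AddMonoidHom.snd _ _) cB_dl v (h0 v hv)
  vC := fun v hv => vx_net T g cC (by simp [cC]) (AddMonoidHom.fst _ _ + AddMonoidHom.snd _ _) cC_dl v
    (h0 v hv)

theorem rr_net (T : SimpleGraph V) [DecidableRel T.Adj] (g : V → V → G)
    (h0 : ∀ v : V, (¬ ∃! w : V, T.Adj v w) → (∑ w : V, (if T.Adj v w then g v w else (0 : G))) = 0) :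
    RR T (vec T g) where
  pA := fun v hv => (vx_aux T g cA (by simp [cA]) (AddMonoidHom.fst _ _) cA_dl v (h0 v hv)).1
  pB := fun v hv => (vx_aux T g cB (by simp [cB]) (AddMonoidHom.snd _ _) cB_dl v (h0 v hv)).1

end Q46.Kim
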