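import Pool.Agent.Q46.Kim.Avail

set_option autoImplicit false
set_option linter.unusedVariables false
set_option linter.unusedSimpArgs false

namespace Q46.Kim

open Finset

theorem avail (m : ℤ) (hm : 1 ≤ m) (y x z : G → ℤ) (hy : IsDist m y) (hx : IsDist m x)
    (hz : IsDist m z) (ht : Tri m y x z) :
    ∃ g k : G, 1 ≤ y g ∧ 1 ≤ z k ∧ 1 ≤ x (g + k) ∧
      Tri (m - 1) (fun h => y h - dl g h) (fun h => x h - dl (g + k) h)
        (fun h => z h - dl k h) := by
  obtain ⟨t1, t2, t3, p1, p2⟩ := ht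
  have key := avail_num m (y (0, 0)) (y (1, 0)) (y (0, 1)) (y (1, 1))
    (x (0, 0)) (x (1, 0)) (x (0, 1)) (x (1, 1)) (z (0, 0)) (z (1, 0)) (z (0, 1)) (z (1, 1))
    hm hy hx hz ⟨t1, t2, t3⟩ p1 p2
  have aux : ∀ g k s : G, g + k = s → 1 ≤ y g → 1 ≤ z k → 1 ≤ x s →
      Tri (m - 1) (fun h => y h - dl g h) (fun h => x h - dl s h) (fun h => z h - dl k h) →
      ∃ g k : G, 1 ≤ y g ∧ 1 ≤ z k ∧ 1 ≤ x (g + k) ∧
      Tri (m - 1) (fun h => y h - dl g h) (fun h => x h - dl (g + k) h)
        (fun h => z h - dl k h) := by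
    intro g k s h1 h2 h3 h4 h5
    subst h1
    exact ⟨g, k, h2, h3, h4, h5⟩
  have d1 : ((0 : ZMod 2) = 1) = False := by decide
  have d2 : ((1 : ZMod 2) = 0) = False := by decide
  have d3 : ((0 : ZMod 2) = 0) = True := by decide
  have d4 : ((1 : ZMod 2) = 1) = True := by decide
  rcases key with h | h | h | h | h | h | h | h | h | h | h | h | h | h | h | h <;>
    obtain ⟨h1, h2, h3, h4, h5, h6⟩ := h
  all_goals
    refine aux _ _ _ (by decide) h1 h2 h3 ⟨?_, ?_, ?_, ?_, ?_⟩ <;>
    simp only [cA, cB, cC, dl, Prod.mk.injEq, d1, d2, d3, d4, and_true, and_false, true_and,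
      false_and, and_self, if_true, if_false, sub_zero] at * <;>
    first
      | assumption
      | omega

theorem cases4 : ∀ g : G, g = (0, 0) ∨ g = (0, 1) ∨ g = (1, 0) ∨ g = (1, 1) := by decide

theorem dist_sub (m : ℤ) (y : G → ℤ) (hy : IsDist m y) (g : G) (hg : 1 ≤ y g) :
    IsDist (m - 1) (fun h => y h - dl g h) := by
  have d1 : ((0 : ZMod 2) = 1) = False := by decide
  have d2 : ((1 : ZMod 2) = 0) = False := by decide
  have d3 : ((0 : ZMod 2) = 0) = True := by decide
  have d4 : ((1 : ZMod 2) = 1) = True := by decide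
  unfold IsDist at *
  rcases cases4 g with rfl | rfl | rfl | rfl <;>
  simp only [dl, Prod.mk.injEq, d1, d2, d3, d4, and_true, and_false, true_and,
      false_and, and_self, if_true, if_false, sub_zero] <;> omega

/-- number of occurrences -/
def cnt {m : ℕ} (s : Fin m → G) (h : G) : ℤ := ∑ i, if s i = h then 1 else 0

theorem cnt_cons {m : ℕ} (s : Fin m → G) (g h : G) :
    cnt (Fin.cons g s : Fin (m + 1) → G) h = dl g h + cnt s h := by
  unfold cnt dl
  rw [Fin.sum_univ_succ]
  simp only [Fin.cons_zero, Fin.cons_succ]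
  congr 1
  simp only [eq_comm]

theorem dist_zero {y : G → ℤ} (hy : IsDist 0 y) (h : G) : y h = 0 := by
  unfold IsDist at hy
  rcases cases4 h with rfl | rfl | rfl | rfl <;> omega

theorem tripod (m : ℕ) : ∀ (y x z : G → ℤ), IsDist m y → IsDist m x → IsDist m z →
    Tri m y x z → ∃ s t : Fin m → G, (∀ h, cnt s h = y h) ∧ (∀ h, cnt t h = z h) ∧
      ∀ h, cnt (fun i => s i + t i) h = x h := by
  induction m with
  | zero =>
    intro y x z hy hx hz _
    have hy' : IsDist 0 y := by simpa using hy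
    have hx' : IsDist 0 x := by simpa using hx
    have hz' : IsDist 0 z := by simpa using hz
    refine ⟨Fin.elim0, Fin.elim0, ?_, ?_, ?_⟩
    · intro h; rw [dist_zero hy']; simp [cnt]
    · intro h; rw [dist_zero hz']; simp [cnt]
    · intro h; rw [dist_zero hx']; simp [cnt]
  | succ m ih =>
    intro y x z hy hx hz ht
    obtain ⟨g, k, h1, h2, h3, h4⟩ := avail _ (by push_cast; omega) y x z hy hx hz ht
    have e : ((m + 1 : ℕ) : ℤ) - 1 = m := by push_cast; ring
    have hy' := dist_sub _ y hy g h1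
    have hz' := dist_sub _ z hz k h2
    have hx' := dist_sub _ x hx _ h3
    rw [e] at hy' hz' hx' h4
    obtain ⟨s, t, i1, i2, i3⟩ := ih _ _ _ hy' hx' hz' h4
    refine ⟨Fin.cons g s, Fin.cons k t, ?_, ?_, ?_⟩
    · intro h; rw [cnt_cons, i1]; ring
    · intro h; rw [cnt_cons, i2]; ring
    · intro h
      have : (fun i => (Fin.cons g s : Fin (m + 1) → G) i + (Fin.cons k t : Fin (m + 1) → G) i) =
          Fin.cons (g + k) (fun i => s i + t i) := by
        funext i
        refine Fin.cases ?_ (fun i => ?_) i <;> simp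
      rw [this, cnt_cons, i3]; ring

/-- alignment of two enumerations -/
theorem align {m : ℕ} (s s' : Fin m → G) (h : ∀ g, cnt s g = cnt s' g) :
    ∃ π : Equiv.Perm (Fin m), ∀ i, s' (π i) = s i := by
  have hc : ∀ g, Nonempty ({i // s i = g} ≃ {i // s' i = g}) := by
    intro g
    have := h g
    unfold cnt at this
    rw [Finset.sum_boole, Finset.sum_boole] at this
    refine ⟨Fintype.equivOfCardEq ?_⟩
    rw [Fintype.card_subtype, Fintype.card_subtype]
    exact_mod_cast this
  let e : ∀ g, {i // s i = g} ≃ {i // s' i = g} := fun g => (hc g).some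
  refine ⟨(Equiv.sigmaFiberEquiv s).symm.trans ((Equiv.sigmaCongrRight e).trans
    (Equiv.sigmaFiberEquiv s')), fun i => ?_⟩
  simp only [Equiv.trans_apply, Equiv.sigmaFiberEquiv_symm_apply_fst, Equiv.sigmaFiberEquiv,
    Equiv.coe_fn_symm_mk, Equiv.sigmaCongrRight_apply, Sigma.map, Equiv.coe_fn_mk]
  exact (e (s i) ⟨i, rfl⟩).2

theorem cnt_perm {m : ℕ} (s : Fin m → G) (π : Equiv.Perm (Fin m)) (h : G) :
    cnt (fun i => s (π i)) h = cnt s h := by
  unfold cnt
  exact Equiv.sum_comp π (fun i => if s i = h then (1 : ℤ) else 0)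

theorem tripod' (m : ℕ) (y x z : G → ℤ) (hy : IsDist m y) (hx : IsDist m x) (hz : IsDist m z)
    (ht : Tri m y x z) (s : Fin m → G) (hs : ∀ h, cnt s h = y h) :
    ∃ t : Fin m → G, (∀ h, cnt t h = z h) ∧ ∀ h, cnt (fun i => s i + t i) h = x h := by
  obtain ⟨s', t', h1, h2, h3⟩ := tripod m y x z hy hx hz ht
  obtain ⟨π, hπ⟩ := align s s' (fun g => by rw [hs, h1])
  refine ⟨fun i => t' (π i), fun h => by rw [cnt_perm, h2], fun h => ?_⟩
  have : (fun i => s i + t' (π i)) = fun i => (fun j => s' j + t' j) (π i) := by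
    funext i; simp only [hπ]
  rw [this, cnt_perm (fun j => s' j + t' j) π h, h3]

end Q46.Kim
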